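import Mathlib

set_option autoImplicit false

open scoped RealInnerProductSpace
open Set Filter Topology

namespace Pool.Agent.H32.Strong

/-- the real Hilbert space of square summable sequences -/
abbrev H : Type := lp (fun _ : ℕ => ℝ) 2

/-- the exponents, strictly increasing in the interval from 1 to 2 -/
noncomputable def p (k : ℕ) : ℝ := 2 - 1 / (k + 2)

lemma p_gt_one (k : ℕ) : 1 < p k := by
  unfold p
  have h : (0:ℝ) ≤ k := Nat.cast_nonneg k
  have h1 : 1 / ((k:ℝ) + 2) < 1 := by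
    rw [div_lt_one (by linarith)]; linarith
  linarith

lemma p_lt_two (k : ℕ) : p k < 2 := by
  unfold p
  have h : (0:ℝ) ≤ k := Nat.cast_nonneg k
  have h1 : 0 < 1 / ((k:ℝ) + 2) := by positivity
  linarith

lemma p_strictMono : StrictMono p := by
  apply strictMono_nat_of_lt_succ
  intro k
  unfold p
  have h : (0:ℝ) ≤ k := Nat.cast_nonneg k
  have h1 : 1 / (((k+1 : ℕ):ℝ) + 2) < 1 / ((k:ℝ) + 2) := by
    apply one_div_lt_one_div_of_lt (by linarith)
    push_cast; linarith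
  linarith

/-- the signed power -/
noncomputable def psi (q t : ℝ) : ℝ := |t| ^ (q - 2) * t

lemma psi_zero (q : ℝ) : psi q 0 = 0 := by simp [psi]

lemma psi_of_pos {q t : ℝ} (ht : 0 < t) : psi q t = t ^ (q - 1) := by
  unfold psi
  rw [abs_of_pos ht]
  nth_rewrite 2 [← Real.rpow_one t]
  rw [← Real.rpow_add ht]
  congr 1; ring

lemma psi_neg (q t : ℝ) : psi q (-t) = - psi q t := by
  simp [psi]

lemma abs_psi {q : ℝ} (hq : 1 < q) (t : ℝ) : |psi q t| = |t| ^ (q - 1) := by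
  rcases lt_trichotomy t 0 with h | h | h
  · have : t = -(-t) := by ring
    rw [this, psi_neg, abs_neg, psi_of_pos (by linarith), abs_neg,
      abs_of_pos (Real.rpow_pos_of_pos (by linarith) _), abs_of_pos (by linarith : (0:ℝ) < -t)]
  · subst h
    simp [psi_zero]
    rw [Real.zero_rpow (by linarith)]
  · rw [psi_of_pos h, abs_of_pos (Real.rpow_pos_of_pos h _), abs_of_pos h]

lemma psi_of_nonneg {q t : ℝ} (hq : 1 < q) (ht : 0 ≤ t) : psi q t = t ^ (q - 1) := by
  rcases ht.eq_or_lt with h | h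
  · subst h; rw [psi_zero, Real.zero_rpow (by linarith)]
  · exact psi_of_pos h

/-- sub-additivity of the power gives a Hoelder bound, nonnegative case -/
lemma rpow_sub_le {r a b : ℝ} (hr0 : 0 ≤ r) (hr1 : r ≤ 1) (ha : 0 ≤ a) (hb : 0 ≤ b) :
    |a ^ r - b ^ r| ≤ |a - b| ^ r := by
  wlog hab : b ≤ a with H
  · rw [abs_sub_comm, abs_sub_comm a b]
    exact H hr0 hr1 hb ha (by linarith)
  have h1 : a ^ r ≤ b ^ r + (a - b) ^ r := by
    have := Real.rpow_add_le_add_rpow (a := b) (b := a - b) hb (by linarith) hr0 hr1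
    simpa using this
  have h2 : b ^ r ≤ a ^ r := Real.rpow_le_rpow hb hab hr0
  rw [abs_of_nonneg (by linarith), abs_of_nonneg (by linarith)]
  linarith

lemma psi_sub_le {q : ℝ} (hq : 1 < q) (hq2 : q ≤ 2) (a b : ℝ) :
    |psi q a - psi q b| ≤ 2 * |a - b| ^ (q - 1) := by
  have hn : ∀ x : ℝ, 0 ≤ |x| ^ (q - 1) := fun x => Real.rpow_nonneg (abs_nonneg _) _
  -- both nonneg
  have key : ∀ a b : ℝ, 0 ≤ a → 0 ≤ b → |psi q a - psi q b| ≤ 2 * |a - b| ^ (q - 1) := by
    intro a b ha hb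
    rw [psi_of_nonneg hq ha, psi_of_nonneg hq hb]
    have := rpow_sub_le (r := q - 1) (by linarith) (by linarith) ha hb
    have := hn (a - b)
    linarith
  have key2 : ∀ a b : ℝ, 0 ≤ a → b ≤ 0 → |psi q a - psi q b| ≤ 2 * |a - b| ^ (q - 1) := by
    intro a b ha hb
    have h1 : |psi q a| ≤ |a - b| ^ (q - 1) := by
      rw [abs_psi hq]
      apply Real.rpow_le_rpow (abs_nonneg _) _ (by linarith)
      rw [abs_of_nonneg ha, abs_of_nonneg (by linarith)]; linarith
    have h2 : |psi q b| ≤ |a - b| ^ (q - 1) := by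
      rw [abs_psi hq]
      apply Real.rpow_le_rpow (abs_nonneg _) _ (by linarith)
      rw [abs_of_nonpos hb, abs_of_nonneg (by linarith)]; linarith
    calc |psi q a - psi q b| ≤ |psi q a| + |psi q b| := abs_sub _ _
      _ ≤ _ := by linarith
  rcases le_total 0 a with ha | ha <;> rcases le_total 0 b with hb | hb
  · exact key a b ha hb
  · exact key2 a b ha hb
  · rw [abs_sub_comm, abs_sub_comm a b]; exact key2 b a hb ha
  · have := key (-a) (-b) (by linarith) (by linarith)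
    rw [psi_neg, psi_neg] at this
    have e1 : -psi q a - -psi q b = -(psi q a - psi q b) := by ring
    have e2 : -a - -b = -(a - b) := by ring
    rwa [e1, e2, abs_neg, abs_neg] at this

/-- unit vectors -/
noncomputable def e (i : ℕ) : H := lp.single 2 i (1:ℝ)

lemma inner_e (i : ℕ) (x : H) : ⟪e i, x⟫ = x i := by
  unfold e
  rw [lp.inner_single_left]
  simp

lemma norm_e (i : ℕ) : ‖e i‖ = 1 := by
  unfold e
  rw [lp.norm_single (by norm_num)]
  simp

/-- the family of functionals -/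
noncomputable def w (k : ℕ) : H :=
  (1 / (1 + (((Nat.unpair (Nat.unpair k).2).2 : ℕ) : ℝ))) •
    (e (Nat.unpair k).1 + (((Nat.unpair (Nat.unpair k).2).2 : ℕ) : ℝ) • e (Nat.unpair (Nat.unpair k).2).1)

lemma norm_w_le (k : ℕ) : ‖w k‖ ≤ 1 := by
  unfold w
  set c : ℝ := (((Nat.unpair (Nat.unpair k).2).2 : ℕ) : ℝ) with hc
  have hc0 : 0 ≤ c := Nat.cast_nonneg _
  rw [norm_smul, Real.norm_of_nonneg (by positivity)]
  have : ‖e (Nat.unpair k).1 + c • e (Nat.unpair (Nat.unpair k).2).1‖ ≤ 1 + c := by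
    refine (norm_add_le _ _).trans ?_
    rw [norm_smul, norm_e, norm_e, Real.norm_of_nonneg hc0]
    linarith
  rw [one_div, inv_mul_le_iff₀ (by linarith)]
  linarith

lemma exists_w (i j c : ℕ) : ∃ k, ∀ x : H, ⟪w k, x⟫ = (1 / (1 + (c:ℝ))) * (x i + c * x j) := by
  refine ⟨Nat.pair i (Nat.pair j c), fun x => ?_⟩
  unfold w
  simp only [Nat.unpair_pair]
  rw [inner_smul_left, inner_add_left, inner_smul_left, inner_e, inner_e]
  simp

/-- the separation property of the family `w` -/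
lemma exists_w_ne (g y : H) (hg : g ≠ 0) (hy : y ≠ 0) : ∃ k, ⟪w k, g⟫ ≠ 0 ∧ ⟪w k, y⟫ ≠ 0 := by
  obtain ⟨i, hi⟩ : ∃ i, g i ≠ 0 := by
    by_contra h
    push Not at h
    exact hg (lp.ext (funext h))
  obtain ⟨j, hj⟩ : ∃ j, y j ≠ 0 := by
    by_contra h
    push Not at h
    exact hy (lp.ext (funext h))
  by_cases h0 : y i = 0
  · by_cases h1 : g i + g j = 0
    · obtain ⟨k, hk⟩ := exists_w i j 2
      refine ⟨k, ?_, ?_⟩
      · rw [hk]
        have : g i + ((2:ℕ):ℝ) * g j = g j := by push_cast; linarith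
        rw [this]
        have hgj : g j ≠ 0 := by
          intro h; apply hi; rw [h] at h1; simpa using h1
        have : (1:ℝ) / (1 + ((2:ℕ):ℝ)) ≠ 0 := by norm_num
        exact mul_ne_zero this hgj
      · rw [hk, h0]
        have : (1:ℝ) / (1 + ((2:ℕ):ℝ)) ≠ 0 := by norm_num
        refine mul_ne_zero this ?_
        rw [zero_add]
        exact mul_ne_zero (by norm_num) hj
    · obtain ⟨k, hk⟩ := exists_w i j 1
      refine ⟨k, ?_, ?_⟩
      · rw [hk]
        have : (1:ℝ) / (1 + ((1:ℕ):ℝ)) ≠ 0 := by norm_num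
        refine mul_ne_zero this ?_
        simpa using h1
      · rw [hk, h0]
        have : (1:ℝ) / (1 + ((1:ℕ):ℝ)) ≠ 0 := by norm_num
        refine mul_ne_zero this ?_
        simpa using hj
  · obtain ⟨k, hk⟩ := exists_w i i 0
    refine ⟨k, ?_, ?_⟩ <;> rw [hk] <;> simpa

lemma abs_inner_w_le (k : ℕ) (x : H) : |⟪w k, x⟫| ≤ ‖x‖ := by
  refine (abs_real_inner_le_norm _ _).trans ?_
  have := norm_w_le k
  nlinarith [norm_nonneg x]

/-- the modular -/
noncomputable def Phi (x : H) : ℝ := ‖x‖ ^ 2 + ∑' k, (1/2 : ℝ) ^ k * |⟪w k, x⟫| ^ (p k)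

lemma rpow_le_aux {q t R : ℝ} (hq0 : 0 ≤ q) (hq2 : q ≤ 2) (ht : |t| ≤ R) : |t| ^ q ≤ (1 + R) ^ 2 := by
  have h1 : |t| ^ q ≤ (1 + R) ^ q := by
    apply Real.rpow_le_rpow (abs_nonneg _) (by linarith) hq0
  have h2 : (1 + R) ^ q ≤ (1 + R) ^ (2:ℝ) := by
    apply Real.rpow_le_rpow_of_exponent_le _ hq2
    have := abs_nonneg t
    linarith
  calc _ ≤ _ := h1
    _ ≤ _ := h2
    _ = _ := by norm_cast

lemma summable_geom : Summable (fun k : ℕ => (1/2 : ℝ) ^ k) :=
  summable_geometric_of_lt_one (by norm_num) (by norm_num)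

lemma summable_Phi (x : H) : Summable (fun k => (1/2 : ℝ) ^ k * |⟪w k, x⟫| ^ (p k)) := by
  refine Summable.of_nonneg_of_le (fun k => ?_) (fun k => ?_) (summable_geom.mul_right ((1 + ‖x‖)^2))
  · positivity
  · have h1 := p_gt_one k
    have h2 := p_lt_two k
    have := rpow_le_aux (q := p k) (by linarith) h2.le (abs_inner_w_le k x)
    gcongr

lemma Phi_nonneg (x : H) : 0 ≤ Phi x := by
  unfold Phi
  have : 0 ≤ ∑' k, (1/2 : ℝ) ^ k * |⟪w k, x⟫| ^ (p k) := tsum_nonneg fun k => by positivity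
  positivity

lemma Phi_zero : Phi 0 = 0 := by
  unfold Phi
  have : ∀ k, (1/2 : ℝ) ^ k * |⟪w k, (0:H)⟫| ^ (p k) = 0 := by
    intro k
    rw [inner_zero_right, abs_zero, Real.zero_rpow (by have := p_gt_one k; linarith)]
    ring
  rw [tsum_congr this]
  simp

lemma norm_sq_le_Phi (x : H) : ‖x‖ ^ 2 ≤ Phi x := by
  unfold Phi
  have : 0 ≤ ∑' k, (1/2 : ℝ) ^ k * |⟪w k, x⟫| ^ (p k) := tsum_nonneg fun k => by positivity
  linarith

lemma Phi_neg (x : H) : Phi (-x) = Phi x := by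
  unfold Phi
  simp

/-- scaling up -/
lemma Phi_smul_le {t : ℝ} (ht : 1 ≤ t) (x : H) : Phi (t • x) ≤ t ^ 2 * Phi x := by
  unfold Phi
  have h1 : ‖t • x‖ ^ 2 = t ^ 2 * ‖x‖ ^ 2 := by
    rw [norm_smul, Real.norm_of_nonneg (by linarith)]; ring
  rw [h1, mul_add, ← tsum_mul_left]
  have : ∑' k, (1/2 : ℝ) ^ k * |⟪w k, t • x⟫| ^ (p k) ≤
      ∑' k, t ^ 2 * ((1/2 : ℝ) ^ k * |⟪w k, x⟫| ^ (p k)) := by
    apply Summable.tsum_le_tsum _ (summable_Phi _) ((summable_Phi x).mul_left _)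
    intro k
    rw [inner_smul_right, abs_mul, Real.mul_rpow (abs_nonneg _) (abs_nonneg _),
      abs_of_nonneg (by linarith : (0:ℝ) ≤ t)]
    have h2 : t ^ (p k) ≤ t ^ 2 := by
      calc t ^ (p k) ≤ t ^ (2:ℝ) := Real.rpow_le_rpow_of_exponent_le ht (p_lt_two k).le
        _ = t ^ 2 := by norm_cast
    have h3 : 0 ≤ (1/2 : ℝ) ^ k * |⟪w k, x⟫| ^ (p k) := by positivity
    calc (1/2 : ℝ) ^ k * (t ^ (p k) * |⟪w k, x⟫| ^ (p k))
        = t ^ (p k) * ((1/2 : ℝ) ^ k * |⟪w k, x⟫| ^ (p k)) := by ring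
      _ ≤ _ := by gcongr
  linarith

/-- scaling down -/
lemma Phi_smul_le_of_le_one {t : ℝ} (ht0 : 0 ≤ t) (ht : t ≤ 1) (x : H) : Phi (t • x) ≤ Phi x := by
  unfold Phi
  have h1 : ‖t • x‖ ^ 2 ≤ ‖x‖ ^ 2 := by
    rw [norm_smul, Real.norm_of_nonneg ht0]
    have : t * ‖x‖ ≤ ‖x‖ := by nlinarith [norm_nonneg x]
    gcongr
  have : ∑' k, (1/2 : ℝ) ^ k * |⟪w k, t • x⟫| ^ (p k) ≤
      ∑' k, ((1/2 : ℝ) ^ k * |⟪w k, x⟫| ^ (p k)) := by
    apply Summable.tsum_le_tsum _ (summable_Phi _) (summable_Phi x)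
    intro k
    rw [inner_smul_right, abs_mul, abs_of_nonneg ht0]
    have := p_gt_one k
    have h2 : t * |⟪w k, x⟫| ≤ |⟪w k, x⟫| := by nlinarith [abs_nonneg ⟪w k, x⟫]
    gcongr
  linarith

/-- convexity -/
lemma Phi_convex (x y : H) {a b : ℝ} (ha : 0 ≤ a) (hb : 0 ≤ b) (hab : a + b = 1) :
    Phi (a • x + b • y) ≤ a * Phi x + b * Phi y := by
  unfold Phi
  have h1 : ‖a • x + b • y‖ ^ 2 ≤ a * ‖x‖ ^ 2 + b * ‖y‖ ^ 2 := by
    have h2 : ‖a • x + b • y‖ ≤ a * ‖x‖ + b * ‖y‖ := by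
      refine (norm_add_le _ _).trans ?_
      rw [norm_smul, norm_smul, Real.norm_of_nonneg ha, Real.norm_of_nonneg hb]
    have h3 : ‖a • x + b • y‖ ^ 2 ≤ (a * ‖x‖ + b * ‖y‖) ^ 2 := by gcongr
    have h4 : (a * ‖x‖ + b * ‖y‖) ^ 2 ≤ a * ‖x‖ ^ 2 + b * ‖y‖ ^ 2 := by
      have hb' : b = 1 - a := by linarith
      subst hb'
      nlinarith [mul_nonneg ha hb, sq_nonneg (‖x‖ - ‖y‖), mul_nonneg (mul_nonneg ha hb) (sq_nonneg (‖x‖ - ‖y‖))]
    linarith
  have h5 : ∑' k, (1/2 : ℝ) ^ k * |⟪w k, a • x + b • y⟫| ^ (p k) ≤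
      ∑' k, (a * ((1/2 : ℝ) ^ k * |⟪w k, x⟫| ^ (p k)) + b * ((1/2 : ℝ) ^ k * |⟪w k, y⟫| ^ (p k))) := by
    apply Summable.tsum_le_tsum _ (summable_Phi _)
      (((summable_Phi x).mul_left _).add ((summable_Phi y).mul_left _))
    intro k
    rw [inner_add_right, inner_smul_right, inner_smul_right]
    have hp := p_gt_one k
    have hc := (convexOn_rpow hp.le).2 (abs_nonneg ⟪w k, x⟫) (abs_nonneg ⟪w k, y⟫) ha hb hab
    simp only [smul_eq_mul] at hc
    have h6 : |a * ⟪w k, x⟫ + b * ⟪w k, y⟫| ≤ a * |⟪w k, x⟫| + b * |⟪w k, y⟫| := by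
      refine (abs_add_le _ _).trans ?_
      rw [abs_mul, abs_mul, abs_of_nonneg ha, abs_of_nonneg hb]
    have h7 : |a * ⟪w k, x⟫ + b * ⟪w k, y⟫| ^ (p k) ≤ (a * |⟪w k, x⟫| + b * |⟪w k, y⟫|) ^ (p k) := by
      gcongr
    have h8 : |a * ⟪w k, x⟫ + b * ⟪w k, y⟫| ^ (p k) ≤ a * |⟪w k, x⟫| ^ (p k) + b * |⟪w k, y⟫| ^ (p k) :=
      h7.trans hc
    have h9 : (0:ℝ) ≤ (1/2 : ℝ) ^ k := by positivity
    calc _ ≤ (1/2 : ℝ) ^ k * (a * |⟪w k, x⟫| ^ (p k) + b * |⟪w k, y⟫| ^ (p k)) := by gcongr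
      _ = _ := by ring
  rw [((summable_Phi x).mul_left a).tsum_add ((summable_Phi y).mul_left b), tsum_mul_left, tsum_mul_left] at h5
  linarith

/-- the unit ball of the new norm -/
def K : Set H := {x | Phi x ≤ 1}

lemma K_convex : Convex ℝ K := by
  intro x hx y hy a b ha hb hab
  simp only [K, mem_ofPred_eq] at *
  have := Phi_convex x y ha hb hab
  nlinarith

lemma zero_mem_K : (0 : H) ∈ K := by simp [K, Phi_zero]

lemma ball_subset_K : Metric.ball (0 : H) (1/3) ⊆ K := by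
  intro x hx
  rw [mem_ball_zero_iff] at hx
  simp only [K, mem_ofPred_eq, Phi]
  have h1 : ∑' k, (1/2 : ℝ) ^ k * |⟪w k, x⟫| ^ (p k) ≤ ∑' k : ℕ, (1/2 : ℝ) ^ k * ‖x‖ := by
    apply Summable.tsum_le_tsum _ (summable_Phi _) (summable_geom.mul_right _)
    intro k
    have hp := p_gt_one k
    have h2 : |⟪w k, x⟫| ^ (p k) ≤ ‖x‖ := by
      have h3 := abs_inner_w_le k x
      calc |⟪w k, x⟫| ^ (p k) ≤ ‖x‖ ^ (p k) := by gcongr
        _ ≤ ‖x‖ ^ (1:ℝ) := Real.rpow_le_rpow_of_exponent_ge' (norm_nonneg _) (by linarith) (by norm_num) hp.le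
        _ = ‖x‖ := Real.rpow_one _
    gcongr
  rw [tsum_mul_right, tsum_geometric_two] at h1
  nlinarith [norm_nonneg x]

lemma K_mem_nhds : K ∈ 𝓝 (0 : H) :=
  Filter.mem_of_superset (Metric.ball_mem_nhds _ (by norm_num)) ball_subset_K

lemma K_absorbent : Absorbent ℝ K := absorbent_nhds_zero K_mem_nhds

lemma K_balanced : Balanced ℝ K := by
  intro a ha x hx
  rw [mem_smul_set] at hx
  obtain ⟨y, hy, rfl⟩ := hx
  simp only [K, mem_ofPred_eq] at *
  have h1 : Phi (a • y) = Phi (|a| • y) := by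
    rcases abs_cases a with h | h
    · rw [h.1]
    · rw [h.1, neg_smul, Phi_neg]
  rw [h1]
  exact (Phi_smul_le_of_le_one (abs_nonneg _) ha y).trans hy

lemma K_subset : K ⊆ Metric.closedBall (0 : H) 1 := by
  intro x hx
  simp only [K, mem_ofPred_eq] at hx
  rw [mem_closedBall_zero_iff]
  have := norm_sq_le_Phi x
  nlinarith [norm_nonneg x]

/-- the new norm, as a function on `H` -/
noncomputable def N (x : H) : ℝ := gauge K x

lemma norm_le_N (x : H) : ‖x‖ ≤ N x := by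
  have := le_gauge_of_subset_closedBall (x := x) K_absorbent (by norm_num) K_subset
  simpa [N] using this

lemma N_le (x : H) : N x ≤ 3 * ‖x‖ := by
  have := mul_gauge_le_norm (x := x) ball_subset_K
  unfold N
  linarith

lemma N_nonneg (x : H) : 0 ≤ N x := gauge_nonneg _

lemma N_add (x y : H) : N (x + y) ≤ N x + N y := gauge_add_le K_convex K_absorbent x y

lemma N_smul (a : ℝ) (x : H) : N (a • x) = ‖a‖ * N x := gauge_smul K_balanced a x

lemma Phi_le_of_N_le {x : H} (hx : N x ≤ 1) : Phi x ≤ 1 := by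
  have h1 : ∀ δ : ℝ, 0 < δ → Phi x ≤ (1 + δ) ^ 2 := by
    intro δ hδ
    obtain ⟨b, hb0, hb1, y, hy, hyx⟩ := exists_lt_of_gauge_lt (a := 1 + δ) K_absorbent (show gauge K x < 1 + δ by
      unfold N at hx; linarith)
    simp only at hyx
    rw [← hyx]
    simp only [K, mem_ofPred_eq] at hy
    rcases le_total b 1 with h | h
    · have := Phi_smul_le_of_le_one hb0.le h y
      nlinarith
    · have := Phi_smul_le h y
      have h3 := Phi_nonneg y
      have h4 : b ^ 2 * Phi y ≤ b ^ 2 := by nlinarith [sq_nonneg b]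
      have h5 : b ^ 2 ≤ (1 + δ) ^ 2 := by gcongr
      linarith
  by_contra hcon
  push Not at hcon
  -- choose delta
  have h2 := h1 (min 1 ((Phi x - 1) / 4)) (by
    apply lt_min (by norm_num); linarith)
  have h3 : min 1 ((Phi x - 1) / 4) ≤ 1 := min_le_left _ _
  have h4 : min 1 ((Phi x - 1) / 4) ≤ (Phi x - 1) / 4 := min_le_right _ _
  have h5 : 0 < min 1 ((Phi x - 1) / 4) := by
    apply lt_min (by norm_num); linarith
  nlinarith

lemma one_le_Phi_of_N {x : H} (hx : 1 ≤ N x) : 1 ≤ Phi x := by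
  by_contra hcon
  push Not at hcon
  -- choose t > 1 with t ^ 2 * Phi x ≤ 1
  have h0 := Phi_nonneg x
  obtain ⟨t, ht1, ht2⟩ : ∃ t : ℝ, 1 < t ∧ t ^ 2 * Phi x ≤ 1 := by
    refine ⟨1 + (1 - Phi x) / 4, by linarith, ?_⟩
    nlinarith [mul_nonneg h0 (by linarith : 0 ≤ 1 - Phi x), mul_nonneg h0 (mul_nonneg (by linarith : 0 ≤ 1 - Phi x) (by linarith : 0 ≤ 1 - Phi x))]
  have h1 : Phi (t • x) ≤ 1 := (Phi_smul_le ht1.le x).trans ht2
  have h2 : N (t • x) ≤ 1 := gauge_le_one_of_mem h1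
  rw [N_smul, Real.norm_of_nonneg (by linarith)] at h2
  nlinarith

/-- the derivative terms -/
noncomputable def term (x y : H) (k : ℕ) : ℝ :=
  (1/2 : ℝ) ^ k * (p k * psi (p k) ⟪w k, x⟫ * ⟪w k, y⟫)

lemma abs_term_le (x y : H) (k : ℕ) {R : ℝ} (hx : ‖x‖ ≤ R) :
    |term x y k| ≤ (1/2 : ℝ) ^ k * (2 * (1 + R) ^ 2 * ‖y‖) := by
  unfold term
  have h1 := p_gt_one k
  have h2 := p_lt_two k
  have h3 := abs_inner_w_le k x
  have h4 := abs_inner_w_le k y
  have h5 : |psi (p k) ⟪w k, x⟫| ≤ (1 + R) ^ 2 := by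
    rw [abs_psi h1]
    exact rpow_le_aux (by linarith) (by linarith) (h3.trans hx)
  rw [abs_mul, abs_mul, abs_mul, abs_of_nonneg (by positivity : (0:ℝ) ≤ (1/2 : ℝ) ^ k),
    abs_of_pos (by linarith : 0 < p k)]
  have : 0 ≤ (1 + R) ^ 2 := by positivity
  gcongr

lemma summable_term (x y : H) : Summable (term x y) := by
  refine Summable.of_norm_bounded (summable_geom.mul_right (2 * (1 + ‖x‖) ^ 2 * ‖y‖)) ?_
  intro k
  exact abs_term_le x y k le_rfl

/-- the derivative of the modular in the direction `y` -/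
noncomputable def D (x y : H) : ℝ := 2 * ⟪x, y⟫ + ∑' k, term x y k

lemma hasDerivAt_Phi (x y : H) : HasDerivAt (fun a : ℝ => Phi (x + a • y)) (D x y) 0 := by
  unfold Phi D
  have h1 : HasDerivAt (fun a : ℝ => ‖x + a • y‖ ^ 2) (2 * ⟪x, y⟫) 0 := by
    have h2 : HasDerivAt (fun a : ℝ => x + a • y) y 0 := by
      have h3 : HasDerivAt (fun a : ℝ => a • y) ((1:ℝ) • y) 0 := (hasDerivAt_id (0:ℝ)).smul_const y
      rw [one_smul] at h3
      exact h3.const_add x
    have := h2.norm_sq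
    simpa using this
  refine h1.add ?_
  have h0 : ∀ k, term x y k = term (x + (0:ℝ) • y) y k := by intro k; simp
  rw [tsum_congr h0]
  refine hasDerivAt_tsum_of_isPreconnected
    (g := fun k a => (1/2 : ℝ) ^ k * |⟪w k, x + a • y⟫| ^ (p k))
    (g' := fun k a => term (x + a • y) y k)
    (u := fun k => (1/2 : ℝ) ^ k * (2 * (1 + (‖x‖ + ‖y‖)) ^ 2 * ‖y‖))
    (t := Ioo (-1) 1) (summable_geom.mul_right _) isOpen_Ioo isPreconnected_Ioo ?_ ?_
    (y₀ := 0) (by simp) (summable_Phi _) (by simp)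
  · intro k a ha
    have h2 : HasDerivAt (fun a : ℝ => ⟪w k, x + a • y⟫) ⟪w k, y⟫ a := by
      have h3 : HasDerivAt (fun a : ℝ => a * ⟪w k, y⟫) (1 * ⟪w k, y⟫) a := (hasDerivAt_id a).mul_const _
      rw [one_mul] at h3
      have h4 := h3.const_add ⟪w k, x⟫
      refine h4.congr_of_eventuallyEq ?_
      filter_upwards with b
      rw [inner_add_right, inner_smul_right]
    have h5 := (hasDerivAt_abs_rpow ⟪w k, x + a • y⟫ (p_gt_one k)).comp a h2
    have h6 := h5.const_mul ((1/2 : ℝ) ^ k)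
    refine h6.congr_deriv ?_
    unfold term psi
    ring
  · intro k a ha
    refine abs_term_le _ _ _ ?_
    refine (norm_add_le _ _).trans ?_
    rw [norm_smul]
    have : ‖a‖ ≤ 1 := by
      rw [Real.norm_eq_abs, abs_le]
      exact ⟨ha.1.le, ha.2.le⟩
    nlinarith [norm_nonneg y]

/-- the first order condition -/
lemma D_eq_zero {x y : H} (hx : N x = 1) (h : ∀ a : ℝ, N x ≤ N (x + a • y)) : D x y = 0 := by
  have hmin : IsLocalMin (fun a : ℝ => Phi (x + a • y)) 0 := by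
    refine Filter.Eventually.of_forall fun a => ?_
    have h1 : Phi x ≤ 1 := Phi_le_of_N_le hx.le
    have h2 : 1 ≤ Phi (x + a • y) := one_le_Phi_of_N (by rw [← hx]; exact h a)
    simp only [zero_smul, add_zero]
    linarith
  exact hmin.hasDerivAt_eq_zero (hasDerivAt_Phi x y)

/-- The analytic heart: at the first index `k` for which the functional neither vanishes at `y` nor
on the plane, the singularity of the derivative cannot be compensated. -/
lemma singular {u v y : H} {k : ℕ} (hu : N u = 1) (hku : ⟪w k, u⟫ = 0) (hkv : ⟪w k, v⟫ ≠ 0)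
    (hv : N v ≤ 1) (hky : ⟪w k, y⟫ ≠ 0)
    (hlow : ∀ j < k, ⟪w j, y⟫ = 0 ∨ (⟪w j, u⟫ = 0 ∧ ⟪w j, v⟫ = 0))
    (hD : ∀ s : ℝ, 0 ≤ s → s < 1 → D ((N (u + s • v))⁻¹ • (u + s • v)) y = 0) : False := by
  set q : ℝ := p k - 1 with hq
  set q' : ℝ := p (k+1) - 1 with hq'
  have hqq : q < q' := by have := p_strictMono (Nat.lt_succ_self k); simp only [hq, hq']; linarith
  have hq0 : 0 < q := by have := p_gt_one k; simp only [hq]; linarith
  have hq'1 : q' < 1 := by have := p_lt_two (k+1); simp only [hq']; linarith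
  -- constants
  set c : ℝ := (1/2 : ℝ) ^ k * (p k * (|⟪w k, v⟫| / 2) ^ q * |⟪w k, y⟫|) with hc
  have hc0 : 0 < c := by
    have := p_gt_one k
    have h1 : 0 < |⟪w k, v⟫| := abs_pos.mpr hkv
    have h2 : 0 < |⟪w k, y⟫| := abs_pos.mpr hky
    have h3 : 0 < p k := by linarith
    positivity
  -- the main inequality
  have main : ∀ s : ℝ, 0 < s → s < 1/2 → c * s ^ q ≤ 10 * ‖y‖ * (2 * s) ^ q' := by
    intro s hs0 hs1
    set a : H := (N (u + s • v))⁻¹ • (u + s • v) with ha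
    have hN1 : N (u + s • v) ≤ 2 := by
      have := N_add u (s • v)
      rw [N_smul, Real.norm_of_nonneg hs0.le] at this
      nlinarith [N_nonneg v]
    have hN2 : 1 - s ≤ N (u + s • v) := by
      have := N_add (u + s • v) ((-s) • v)
      have e1 : u + s • v + (-s) • v = u := by rw [neg_smul]; abel
      rw [e1, N_smul, norm_neg, Real.norm_of_nonneg hs0.le, hu] at this
      nlinarith [N_nonneg v]
    have hN3 : N (u + s • v) ≤ 1 + s := by
      have := N_add u (s • v)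
      rw [N_smul, Real.norm_of_nonneg hs0.le] at this
      nlinarith [N_nonneg v]
    have hN0 : 0 < N (u + s • v) := by linarith
    -- distance from a to u
    have hau : ‖a - u‖ ≤ 2 * s := by
      refine (norm_le_N _).trans ?_
      have e1 : a - u = ((N (u + s • v))⁻¹ - 1) • (u + s • v) + s • v := by
        rw [ha, sub_smul, one_smul]; abel
      rw [e1]
      refine (N_add _ _).trans ?_
      rw [N_smul, N_smul, Real.norm_of_nonneg hs0.le]
      have e2 : ‖(N (u + s • v))⁻¹ - 1‖ * N (u + s • v) = |1 - N (u + s • v)| := by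
        rw [Real.norm_eq_abs]
        nth_rewrite 2 [← abs_of_pos hN0]
        rw [← abs_mul, sub_mul, inv_mul_cancel₀ hN0.ne', one_mul]
      rw [e2]
      have e3 : |1 - N (u + s • v)| ≤ s := by
        rw [abs_le]; constructor <;> linarith
      nlinarith [N_nonneg v]
    have hDa : D a y = 0 := hD s hs0.le (by linarith)
    have hDu : D u y = 0 := by
      have := hD 0 le_rfl (by norm_num)
      simpa [hu] using this
    -- difference
    have hdiff : 2 * ⟪a - u, y⟫ + ∑' j, (term a y j - term u y j) = 0 := by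
      rw [(summable_term a y).tsum_sub (summable_term u y), inner_sub_left]
      unfold D at hDa hDu
      linarith
    rw [((summable_term a y).sub (summable_term u y)).tsum_eq_add_tsum_ite k] at hdiff
    have hrest : ‖∑' j, (if j = k then (0:ℝ) else (term a y j - term u y j))‖ ≤ 8 * ‖y‖ * (2 * s) ^ q' := by
      have hsum : HasSum (fun j : ℕ => (1/2 : ℝ) ^ j * (4 * ‖y‖ * (2 * s) ^ q')) (2 * (4 * ‖y‖ * (2 * s) ^ q')) := by
        have := (summable_geom).hasSum
        rw [tsum_geometric_two] at this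
        exact this.mul_right _
      have e8 : 8 * ‖y‖ * (2 * s) ^ q' = 2 * (4 * ‖y‖ * (2 * s) ^ q') := by ring
      rw [e8]
      refine tsum_of_norm_bounded hsum ?_
      intro j
      have hnn : (0:ℝ) ≤ (1/2 : ℝ) ^ j * (4 * ‖y‖ * (2 * s) ^ q') := by positivity
      split_ifs with hj
      · simpa using hnn
      · rcases lt_or_gt_of_ne hj with hjk | hjk
        · -- j < k
          have : term a y j - term u y j = 0 := by
            rcases hlow j hjk with h | ⟨h1, h2⟩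
            · simp [term, h]
            · have h3 : ⟪w j, a⟫ = 0 := by
                rw [ha, inner_smul_right, inner_add_right, inner_smul_right, h1, h2]; ring
              simp [term, h3, h1, psi_zero]
          rw [this]; simpa using hnn
        · -- k < j
          have hp1 := p_gt_one j
          have hp2 := p_lt_two j
          have e1 : term a y j - term u y j =
              (1/2 : ℝ) ^ j * (p j * (psi (p j) ⟪w j, a⟫ - psi (p j) ⟪w j, u⟫) * ⟪w j, y⟫) := by
            unfold term; ring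
          rw [e1, Real.norm_eq_abs, abs_mul, abs_mul, abs_mul, abs_of_nonneg (by positivity : (0:ℝ) ≤ (1/2 : ℝ) ^ j),
            abs_of_pos (by linarith : 0 < p j)]
          have h1 := psi_sub_le hp1 hp2.le ⟪w j, a⟫ ⟪w j, u⟫
          have h2 : |⟪w j, a⟫ - ⟪w j, u⟫| ≤ 2 * s := by
            rw [← inner_sub_right]
            exact (abs_inner_w_le _ _).trans hau
          have h3 : |⟪w j, a⟫ - ⟪w j, u⟫| ^ (p j - 1) ≤ (2 * s) ^ q' := by
            calc |⟪w j, a⟫ - ⟪w j, u⟫| ^ (p j - 1) ≤ (2 * s) ^ (p j - 1) := by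
                  apply Real.rpow_le_rpow (abs_nonneg _) h2 (by linarith)
              _ ≤ (2 * s) ^ q' := by
                  apply Real.rpow_le_rpow_of_exponent_ge (by linarith) (by linarith)
                  have := p_strictMono.monotone (Nat.succ_le_of_lt hjk)
                  simp only [hq']
                  have e : p (k+1) = p (Nat.succ k) := rfl
                  rw [e]; linarith
          have h4 := abs_inner_w_le j y
          have h5 : |psi (p j) ⟪w j, a⟫ - psi (p j) ⟪w j, u⟫| ≤ 2 * (2 * s) ^ q' := by linarith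
          have h6 : 0 ≤ (2 * s) ^ q' := by positivity
          calc (1/2 : ℝ) ^ j * (p j * |psi (p j) ⟪w j, a⟫ - psi (p j) ⟪w j, u⟫| * |⟪w j, y⟫|)
              ≤ (1/2 : ℝ) ^ j * (2 * (2 * (2 * s) ^ q') * ‖y‖) := by gcongr
            _ = _ := by ring
    -- the singular term
    have hmain : |term a y k - term u y k| = (1/2 : ℝ) ^ k * (p k * |⟪w k, a⟫| ^ q * |⟪w k, y⟫|) := by
      have e1 : term u y k = 0 := by simp [term, hku, psi_zero]
      rw [e1, sub_zero]
      unfold term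
      have hp1 := p_gt_one k
      rw [abs_mul, abs_mul, abs_mul, abs_of_nonneg (by positivity : (0:ℝ) ≤ (1/2 : ℝ) ^ k),
            abs_of_pos (by linarith : 0 < p k), abs_psi hp1]
    have hwa : s * (|⟪w k, v⟫| / 2) ≤ |⟪w k, a⟫| := by
      rw [ha, inner_smul_right, inner_add_right, inner_smul_right, hku, zero_add, abs_mul, abs_mul,
        abs_of_pos hs0, abs_of_pos (inv_pos.mpr hN0)]
      have h1 : (2:ℝ)⁻¹ ≤ (N (u + s • v))⁻¹ := by
        apply inv_anti₀ hN0 hN1
      have h2 := abs_nonneg ⟪w k, v⟫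
      calc s * (|⟪w k, v⟫| / 2) = (2:ℝ)⁻¹ * (s * |⟪w k, v⟫|) := by ring
        _ ≤ _ := by gcongr
    have h1 : c * s ^ q ≤ |term a y k - term u y k| := by
      rw [hmain, hc]
      have e1 : (s * (|⟪w k, v⟫| / 2)) ^ q ≤ |⟪w k, a⟫| ^ q := by
        apply Real.rpow_le_rpow (by positivity) hwa hq0.le
      rw [Real.mul_rpow hs0.le (by positivity)] at e1
      have hp1 := p_gt_one k
      have hp0 : 0 ≤ p k := by linarith
      calc _ = (1/2 : ℝ) ^ k * (p k * (s ^ q * (|⟪w k, v⟫| / 2) ^ q) * |⟪w k, y⟫|) := by ring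
        _ ≤ _ := by gcongr
    have h2 : |term a y k - term u y k| ≤ |2 * ⟪a - u, y⟫| + ‖∑' j, (if j = k then (0:ℝ) else (term a y j - term u y j))‖ := by
      have e1 : term a y k - term u y k = -(2 * ⟪a - u, y⟫) - ∑' j, (if j = k then (0:ℝ) else (term a y j - term u y j)) := by
        linarith
      rw [e1]
      refine (abs_sub _ _).trans ?_
      rw [abs_neg, Real.norm_eq_abs]
    have h3 : |2 * ⟪a - u, y⟫| ≤ 2 * ‖y‖ * (2 * s) ^ q' := by
      rw [abs_mul, abs_of_pos (by norm_num : (0:ℝ) < 2)]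
      have e1 := abs_real_inner_le_norm (a - u) y
      have e2 : 2 * s ≤ (2 * s) ^ q' := by
        calc 2 * s = (2 * s) ^ (1:ℝ) := (Real.rpow_one _).symm
          _ ≤ _ := Real.rpow_le_rpow_of_exponent_ge (by linarith) (by linarith) hq'1.le
      have e3 : ‖a - u‖ * ‖y‖ ≤ (2 * s) ^ q' * ‖y‖ := by
        have := norm_nonneg y
        have := hau.trans e2
        gcongr
      nlinarith
    linarith
  -- let s tend to zero
  have hlim : Tendsto (fun s : ℝ => 10 * ‖y‖ * 2 ^ q' * s ^ (q' - q)) (𝓝[>] 0) (𝓝 (10 * ‖y‖ * 2 ^ q' * 0)) := by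
    apply Tendsto.const_mul
    have h1 : Tendsto (fun s : ℝ => s ^ (q' - q)) (𝓝 0) (𝓝 ((0:ℝ) ^ (q' - q))) :=
      (Real.continuousAt_rpow_const 0 (q' - q) (Or.inr (by linarith))).tendsto
    rw [Real.zero_rpow (by linarith)] at h1
    exact h1.mono_left nhdsWithin_le_nhds
  rw [mul_zero] at hlim
  have hev : ∀ᶠ s in 𝓝[>] (0:ℝ), c ≤ 10 * ‖y‖ * 2 ^ q' * s ^ (q' - q) := by
    have h2 : Ioo (0:ℝ) (1/2) ∈ 𝓝[>] (0:ℝ) := Ioo_mem_nhdsGT (by norm_num)
    filter_upwards [h2] with s hs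
    have h3 := main s hs.1 hs.2
    have h4 : 0 < s ^ q := Real.rpow_pos_of_pos hs.1 _
    rw [Real.mul_rpow (by norm_num) hs.1.le] at h3
    have h5 : s ^ q' = s ^ q * s ^ (q' - q) := by
      rw [← Real.rpow_add hs.1]; congr 1; ring
    rw [h5] at h3
    have h6 : s ^ q * c ≤ s ^ q * (10 * ‖y‖ * 2 ^ q' * s ^ (q' - q)) := by
      calc s ^ q * c = c * s ^ q := by ring
        _ ≤ _ := h3
        _ = _ := by ring
    exact le_of_mul_le_mul_left h6 h4
  have := ge_of_tendsto hlim hev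
  linarith

/-- No plane is Birkhoff orthogonal to a nonzero vector for the norm `N`. -/
lemma no_strong (g h y : H) (hlin : ∀ a b : ℝ, a • g + b • h = 0 → a = 0 ∧ b = 0) (hy : y ≠ 0)
    (hG : ∀ a b t : ℝ, N (a • g + b • h) ≤ N (a • g + b • h + t • y)) : False := by
  classical
  have hg : g ≠ 0 := by
    intro hg0
    have := hlin 1 0 (by simp [hg0])
    exact one_ne_zero this.1
  have hex : ∃ k, (⟪w k, g⟫ ≠ 0 ∨ ⟪w k, h⟫ ≠ 0) ∧ ⟪w k, y⟫ ≠ 0 := by
    obtain ⟨k, hk1, hk2⟩ := exists_w_ne g y hg hy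
    exact ⟨k, Or.inl hk1, hk2⟩
  set k := Nat.find hex with hk
  obtain ⟨hk1, hk2⟩ := Nat.find_spec hex
  rw [← hk] at hk1 hk2
  have hlow : ∀ j < k, ⟪w j, y⟫ = 0 ∨ (⟪w j, g⟫ = 0 ∧ ⟪w j, h⟫ = 0) := by
    intro j hj
    have := Nat.find_min hex hj
    push Not at this
    by_cases h1 : ⟪w j, y⟫ = 0
    · exact Or.inl h1
    · right
      by_contra h2
      apply h1
      apply this
      by_contra h3
      push Not at h3
      exact h2 h3
  -- the vector in the kernel
  set a₀ : ℝ := ⟪w k, h⟫ with ha₀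
  set b₀ : ℝ := -⟪w k, g⟫ with hb₀
  set u₀ : H := a₀ • g + b₀ • h with hu₀
  have hu₀0 : u₀ ≠ 0 := by
    intro h0
    obtain ⟨h1, h2⟩ := hlin a₀ b₀ h0
    rcases hk1 with h3 | h3
    · apply h3; rw [hb₀] at h2; linarith
    · exact h3 h1
  have hNu₀ : 0 < N u₀ := lt_of_lt_of_le (norm_pos_iff.mpr hu₀0) (norm_le_N _)
  -- the other vector
  obtain ⟨a₁, b₁, hv₀⟩ : ∃ a₁ b₁ : ℝ, ⟪w k, a₁ • g + b₁ • h⟫ ≠ 0 := by
    rcases hk1 with h3 | h3
    · exact ⟨1, 0, by simpa using h3⟩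
    · exact ⟨0, 1, by simpa using h3⟩
  set v₀ : H := a₁ • g + b₁ • h with hv₀d
  have hv₀0 : v₀ ≠ 0 := by
    intro h0; apply hv₀; rw [h0, inner_zero_right]
  have hNv₀ : 0 < N v₀ := lt_of_lt_of_le (norm_pos_iff.mpr hv₀0) (norm_le_N _)
  refine singular (u := (N u₀)⁻¹ • u₀) (v := (N v₀)⁻¹ • v₀) (y := y) (k := k) ?_ ?_ ?_ ?_ hk2 ?_ ?_
  · rw [N_smul, Real.norm_of_nonneg (inv_nonneg.mpr hNu₀.le), inv_mul_cancel₀ hNu₀.ne']
  · rw [inner_smul_right, hu₀, inner_add_right, inner_smul_right, inner_smul_right, ha₀, hb₀]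
    ring
  · rw [inner_smul_right]
    exact mul_ne_zero (inv_ne_zero hNv₀.ne') hv₀
  · rw [N_smul, Real.norm_of_nonneg (inv_nonneg.mpr hNv₀.le), inv_mul_cancel₀ hNv₀.ne']
  · intro j hj
    rcases hlow j hj with h1 | ⟨h1, h2⟩
    · exact Or.inl h1
    · right
      constructor
      · rw [inner_smul_right, hu₀, inner_add_right, inner_smul_right, inner_smul_right, h1, h2]; ring
      · rw [inner_smul_right, hv₀d, inner_add_right, inner_smul_right, inner_smul_right, h1, h2]; ring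
  · intro s hs0 hs1
    -- the point lies in the plane
    set z : H := (N u₀)⁻¹ • u₀ + s • ((N v₀)⁻¹ • v₀) with hz
    have hzN : 0 < N z := by
      have h1 := N_add z ((-s) • ((N v₀)⁻¹ • v₀))
      have e1 : z + (-s) • ((N v₀)⁻¹ • v₀) = (N u₀)⁻¹ • u₀ := by rw [hz, neg_smul]; abel
      rw [e1, N_smul, N_smul, N_smul, norm_neg, Real.norm_of_nonneg hs0,
        Real.norm_of_nonneg (inv_nonneg.mpr hNv₀.le), inv_mul_cancel₀ hNv₀.ne',
        Real.norm_of_nonneg (inv_nonneg.mpr hNu₀.le), inv_mul_cancel₀ hNu₀.ne'] at h1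
      linarith
    obtain ⟨α, β, hαβ⟩ : ∃ α β : ℝ, (N z)⁻¹ • z = α • g + β • h := by
      refine ⟨(N z)⁻¹ * ((N u₀)⁻¹ * a₀ + s * (N v₀)⁻¹ * a₁), (N z)⁻¹ * ((N u₀)⁻¹ * b₀ + s * (N v₀)⁻¹ * b₁), ?_⟩
      conv_lhs => rw [hz]
      rw [hu₀, hv₀d]
      module
    apply D_eq_zero
    · rw [N_smul, Real.norm_of_nonneg (inv_nonneg.mpr hzN.le), inv_mul_cancel₀ hzN.ne']
    · intro t
      rw [hαβ]
      exact hG α β t

/-- the renormed space -/
def E : Type := H

noncomputable instance : AddCommGroup E := inferInstanceAs (AddCommGroup H)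

noncomputable instance : Module ℝ E := inferInstanceAs (Module ℝ H)

noncomputable instance : Norm E := ⟨fun x => N x⟩

lemma norm_def (x : E) : ‖x‖ = N x := rfl

lemma core : NormedSpace.Core ℝ E where
  norm_nonneg x := N_nonneg x
  norm_smul a x := N_smul a x
  norm_triangle x y := N_add x y
  norm_eq_zero_iff x := by
    constructor
    · intro h
      have h1 : N x = 0 := h
      have h2 := norm_le_N x
      rw [h1] at h2
      exact norm_le_zero_iff.mp h2
    · intro h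
      have h3 : x = (0 : H) := h
      have h1 := N_le x
      rw [h3] at h1
      have h2 := N_nonneg x
      rw [h3] at h2
      show N x = 0
      rw [h3]
      rw [norm_zero] at h1
      linarith

noncomputable instance : NormedAddCommGroup E := NormedAddCommGroup.ofCore core

noncomputable instance : NormedSpace ℝ E := NormedSpace.ofCore core

/-- the identity map to the Hilbert space -/
def toH (x : E) : H := x

/-- the identity map from the Hilbert space -/
def ofH (x : H) : E := x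

lemma norm_toH_le (x : E) : ‖toH x‖ ≤ ‖x‖ := norm_le_N (toH x)

lemma norm_ofH_le (x : H) : ‖ofH x‖ ≤ 3 * ‖x‖ := N_le x

lemma toH_sub (x y : E) : toH (x - y) = toH x - toH y := rfl

instance : CompleteSpace E := by
  apply Metric.complete_of_cauchySeq_tendsto
  intro x hx
  have hx' : CauchySeq (fun n => toH (x n)) := by
    rw [Metric.cauchySeq_iff] at hx ⊢
    intro ε hε
    obtain ⟨M, hM⟩ := hx ε hε
    refine ⟨M, fun m hm n hn => ?_⟩
    have h1 := hM m hm n hn
    rw [dist_eq_norm] at h1 ⊢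
    rw [← toH_sub]
    exact lt_of_le_of_lt (norm_toH_le _) h1
  obtain ⟨a, ha⟩ := cauchySeq_tendsto_of_complete hx'
  refine ⟨ofH a, ?_⟩
  rw [tendsto_iff_norm_sub_tendsto_zero] at ha ⊢
  refine squeeze_zero (fun n => norm_nonneg _) (fun n => norm_ofH_le (toH (x n) - a)) ?_
  simpa using ha.const_mul 3

lemma not_finiteDimensional : ¬ FiniteDimensional ℝ E := by
  intro h
  have h' : FiniteDimensional ℝ H := h
  have hli : LinearIndependent ℝ e := by
    have ho : Orthonormal ℝ e := by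
      rw [orthonormal_iff_ite]
      intro i j
      rw [inner_e]
      unfold e
      rw [lp.single_apply]
      simp [Pi.single_apply]
    exact ho.linearIndependent
  have : Finite ℕ := LinearIndependent.finite hli
  exact not_finite ℕ

/-- the answer to Q1 is negative -/
theorem main : ¬ (∀ (𝕜 : Type) [RCLike 𝕜] (E : Type) [NormedAddCommGroup E] [NormedSpace 𝕜 E]
      [CompleteSpace E], ¬ FiniteDimensional 𝕜 E →
      ∃ G : Submodule 𝕜 E, 2 ≤ Module.rank 𝕜 G ∧
        ∃ x : E, x ≠ 0 ∧ ∀ g ∈ G, ∀ α : 𝕜, ‖g‖ ≤ ‖g + α • x‖) := by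
  intro hall
  obtain ⟨G, hG, y, hy, hGy⟩ := hall ℝ E not_finiteDimensional
  obtain ⟨v, hv⟩ := (Module.le_rank_iff (n := 2)).mp hG
  refine no_strong (toH (v 0)) (toH (v 1)) (toH y) ?_ hy ?_
  · intro a b hab
    have h2 : a • v 0 + b • v 1 = 0 := Subtype.ext hab
    have h3 := Fintype.linearIndependent_iff.mp hv ![a, b] (by
      rw [Fin.sum_univ_two]
      simpa using h2)
    exact ⟨by simpa using h3 0, by simpa using h3 1⟩
  · intro a b t
    have h1 : a • (v 0 : E) + b • (v 1 : E) ∈ G :=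
      G.add_mem (G.smul_mem _ (v 0).2) (G.smul_mem _ (v 1).2)
    exact hGy _ h1 t

end Pool.Agent.H32.Strong
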