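import Mathlib

/-! # Strong subspaces over an arbitrary scalar field (real or complex)

For `K = ℝ` and for `K = ℂ` an explicit equivalent norm on the Hilbert space `l^2(K)` without strong
subspaces of dimension at least two. -/

set_option autoImplicit false

open Set Filter Topology

namespace Pool.Agent.H32.StrongK

/-- the exponents, strictly increasing in the interval from 1 to 2 -/
noncomputable def p (k : ℕ) : ℝ := 2 - 1 / (k + 2)

lemma p_gt_one (k : ℕ) : 1 < p k := by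
  unfold p
  have h : (0:ℝ) ≤ k := Nat.cast_nonneg k
  have h1 : 1 / ((k:ℝ) + 2) < 1 := by
    rw [div_lt_one (by linarith)]; linarith
  linarith

lemma p_lt_two (k : ℕ) : p k < 2 := by
  unfold p
  have h : (0:ℝ) ≤ k := Nat.cast_nonneg k
  have h1 : 0 < 1 / ((k:ℝ) + 2) := by positivity
  linarith

lemma p_strictMono : StrictMono p := by
  apply strictMono_nat_of_lt_succ
  intro k
  unfold p
  have h : (0:ℝ) ≤ k := Nat.cast_nonneg k
  have h1 : 1 / (((k+1 : ℕ):ℝ) + 2) < 1 / ((k:ℝ) + 2) := by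
    apply one_div_lt_one_div_of_lt (by linarith)
    push_cast; linarith
  linarith

variable {𝕜 : Type} [RCLike 𝕜]

/-- the signed power -/
noncomputable def psi (q : ℝ) (t : 𝕜) : 𝕜 := ((‖t‖ ^ (q - 2) : ℝ) : 𝕜) * t

lemma psi_zero (q : ℝ) : psi q (0 : 𝕜) = 0 := by simp [psi]

lemma norm_psi {q : ℝ} (hq : 1 < q) (t : 𝕜) : ‖psi q t‖ = ‖t‖ ^ (q - 1) := by
  by_cases h : t = 0
  · subst h
    rw [psi_zero, norm_zero, Real.zero_rpow (by linarith)]
  · have ht : 0 < ‖t‖ := norm_pos_iff.mpr h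
    unfold psi
    rw [norm_mul, RCLike.norm_ofReal, abs_of_nonneg (Real.rpow_nonneg ht.le _)]
    nth_rewrite 2 [← Real.rpow_one ‖t‖]
    rw [← Real.rpow_add ht]
    congr 1; ring

lemma psi_sub_le {q : ℝ} (hq : 1 < q) (hq2 : q ≤ 2) (a b : 𝕜) :
    ‖psi q a - psi q b‖ ≤ 2 * ‖a - b‖ ^ (q - 1) := by
  wlog hab : ‖b‖ ≤ ‖a‖ with H
  · rw [norm_sub_rev, norm_sub_rev a b]
    exact H hq hq2 b a (by linarith)
  rcases le_or_gt ‖a‖ ‖a - b‖ with h1 | h1
  · have h2 : ‖psi q a‖ ≤ ‖a - b‖ ^ (q - 1) := by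
      rw [norm_psi hq]
      exact Real.rpow_le_rpow (norm_nonneg _) h1 (by linarith)
    have h3 : ‖psi q b‖ ≤ ‖a - b‖ ^ (q - 1) := by
      rw [norm_psi hq]
      exact Real.rpow_le_rpow (norm_nonneg _) (hab.trans h1) (by linarith)
    calc ‖psi q a - psi q b‖ ≤ ‖psi q a‖ + ‖psi q b‖ := norm_sub_le _ _
      _ ≤ _ := by linarith
  · by_cases hd : a - b = 0
    · have : a = b := sub_eq_zero.mp hd
      subst this
      simp only [sub_self, norm_zero]
      rw [Real.zero_rpow (by linarith)]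
      simp
    have hd0 : 0 < ‖a - b‖ := norm_pos_iff.mpr hd
    have ha0 : 0 < ‖a‖ := lt_trans hd0 h1
    have hb0 : 0 < ‖b‖ := by
      have := norm_sub_norm_le a (a - b)
      have e : a - (a - b) = b := by ring
      rw [e] at this
      linarith
    -- splitting
    have e1 : psi q a - psi q b = ((‖a‖ ^ (q - 2) : ℝ) : 𝕜) * (a - b)
        - (((‖b‖ ^ (q - 2) - ‖a‖ ^ (q - 2) : ℝ)) : 𝕜) * b := by
      unfold psi
      push_cast
      ring
    have hmono : ‖a‖ ^ (q - 2) ≤ ‖b‖ ^ (q - 2) :=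
      Real.rpow_le_rpow_of_nonpos hb0 hab (by linarith)
    have f1 : ‖((‖a‖ ^ (q - 2) : ℝ) : 𝕜) * (a - b)‖ = ‖a‖ ^ (q - 2) * ‖a - b‖ := by
      rw [norm_mul, RCLike.norm_ofReal, abs_of_nonneg (Real.rpow_nonneg ha0.le _)]
    have f2 : ‖(((‖b‖ ^ (q - 2) - ‖a‖ ^ (q - 2) : ℝ)) : 𝕜) * b‖ = (‖b‖ ^ (q - 2) - ‖a‖ ^ (q - 2)) * ‖b‖ := by
      rw [norm_mul, RCLike.norm_ofReal, abs_of_nonneg (by linarith)]
    have g1 : ‖a‖ ^ (q - 2) * ‖a - b‖ ≤ ‖a - b‖ ^ (q - 1) := by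
      have h2 : ‖a‖ ^ (q - 2) ≤ ‖a - b‖ ^ (q - 2) :=
        Real.rpow_le_rpow_of_nonpos hd0 h1.le (by linarith)
      calc ‖a‖ ^ (q - 2) * ‖a - b‖ ≤ ‖a - b‖ ^ (q - 2) * ‖a - b‖ := by gcongr
        _ = ‖a - b‖ ^ (q - 1) := by
          nth_rewrite 2 [← Real.rpow_one ‖a - b‖]
          rw [← Real.rpow_add hd0]
          congr 1; ring
    have eb : ‖b‖ ^ (q - 2) * ‖b‖ = ‖b‖ ^ (q - 1) := by
      nth_rewrite 2 [← Real.rpow_one ‖b‖]
      rw [← Real.rpow_add hb0]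
      congr 1; ring
    have ea : ‖a‖ ^ (q - 2) * ‖a‖ = ‖a‖ ^ (q - 1) := by
      nth_rewrite 2 [← Real.rpow_one ‖a‖]
      rw [← Real.rpow_add ha0]
      congr 1; ring
    have g2 : (‖b‖ ^ (q - 2) - ‖a‖ ^ (q - 2)) * ‖b‖ ≤ ‖a - b‖ ^ (q - 1) := by
      have h3 : ‖b‖ ^ (q - 1) ≤ ‖a‖ ^ (q - 1) := Real.rpow_le_rpow hb0.le hab (by linarith)
      have h4 : ‖a‖ - ‖b‖ ≤ ‖a - b‖ := norm_sub_norm_le a b
      have h5 : (‖b‖ ^ (q - 2) - ‖a‖ ^ (q - 2)) * ‖b‖
          = ‖b‖ ^ (q - 1) - ‖a‖ ^ (q - 1) + ‖a‖ ^ (q - 2) * (‖a‖ - ‖b‖) := by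
        rw [← eb, ← ea]; ring
      rw [h5]
      have h6 : ‖a‖ ^ (q - 2) * (‖a‖ - ‖b‖) ≤ ‖a‖ ^ (q - 2) * ‖a - b‖ := by
        have := Real.rpow_nonneg ha0.le (q - 2)
        gcongr
      linarith
    rw [e1]
    refine (norm_sub_le _ _).trans ?_
    rw [f1, f2]
    linarith

variable (𝕜) in
/-- the Hilbert space of square summable sequences -/
abbrev H : Type := lp (fun _ : ℕ => 𝕜) 2

/-- unit vectors -/
noncomputable def e (i : ℕ) : H 𝕜 := lp.single 2 i (1:𝕜)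

lemma inner_e (i : ℕ) (x : H 𝕜) : inner 𝕜 (e i) x = x i := by
  unfold e
  rw [lp.inner_single_left]
  simp

lemma norm_e (i : ℕ) : ‖(e i : H 𝕜)‖ = 1 := by
  unfold e
  rw [lp.norm_single (by norm_num)]
  simp

/-- the family of functionals -/
noncomputable def w (k : ℕ) : H 𝕜 :=
  ((1 / (1 + (((Nat.unpair (Nat.unpair k).2).2 : ℕ) : ℝ)) : ℝ) : 𝕜) •
    (e (Nat.unpair k).1 +
      ((((Nat.unpair (Nat.unpair k).2).2 : ℕ) : ℝ) : 𝕜) • e (Nat.unpair (Nat.unpair k).2).1)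

lemma norm_w_le (k : ℕ) : ‖(w k : H 𝕜)‖ ≤ 1 := by
  unfold w
  set c : ℝ := (((Nat.unpair (Nat.unpair k).2).2 : ℕ) : ℝ) with hc
  have hc0 : 0 ≤ c := Nat.cast_nonneg _
  rw [norm_smul, RCLike.norm_ofReal, abs_of_nonneg (by positivity)]
  have : ‖(e (Nat.unpair k).1 : H 𝕜) + (c : 𝕜) • e (Nat.unpair (Nat.unpair k).2).1‖ ≤ 1 + c := by
    refine (norm_add_le _ _).trans ?_
    rw [norm_smul, norm_e, norm_e, RCLike.norm_ofReal, abs_of_nonneg hc0]
    linarith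
  rw [one_div, inv_mul_le_iff₀ (by linarith)]
  linarith

/-- the functional number `k` -/
noncomputable def W (k : ℕ) (x : H 𝕜) : 𝕜 := inner 𝕜 (w k) x

lemma W_add (k : ℕ) (x y : H 𝕜) : W k (x + y) = W k x + W k y := inner_add_right _ _ _

lemma W_sub (k : ℕ) (x y : H 𝕜) : W k (x - y) = W k x - W k y := inner_sub_right _ _ _

lemma W_smul (k : ℕ) (c : 𝕜) (x : H 𝕜) : W k (c • x) = c * W k x := inner_smul_right _ _ _

lemma W_rsmul (k : ℕ) (c : ℝ) (x : H 𝕜) : W k (c • x) = (c : 𝕜) * W k x := by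
  rw [RCLike.real_smul_eq_coe_smul (K := 𝕜) c x, W_smul]

lemma W_zero (k : ℕ) : W k (0 : H 𝕜) = 0 := inner_zero_right _

lemma exists_w (i j c : ℕ) : ∃ k, ∀ x : H 𝕜,
    W k x = ((1 / (1 + (c:ℝ)) : ℝ) : 𝕜) * (x i + ((c : ℝ) : 𝕜) * x j) := by
  refine ⟨Nat.pair i (Nat.pair j c), fun x => ?_⟩
  unfold W w
  simp only [Nat.unpair_pair]
  rw [inner_smul_left, inner_add_left, inner_smul_left, inner_e, inner_e]
  simp only [RCLike.conj_ofReal]

/-- the separation property of the family `w` -/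
lemma exists_w_ne (g y : H 𝕜) (hg : g ≠ 0) (hy : y ≠ 0) : ∃ k, W k g ≠ 0 ∧ W k y ≠ 0 := by
  obtain ⟨i, hi⟩ : ∃ i, g i ≠ 0 := by
    by_contra h
    push Not at h
    exact hg (lp.ext (funext h))
  obtain ⟨j, hj⟩ : ∃ j, y j ≠ 0 := by
    by_contra h
    push Not at h
    exact hy (lp.ext (funext h))
  have hc : ∀ c : ℕ, ((1 / (1 + (c:ℝ)) : ℝ) : 𝕜) ≠ 0 := by
    intro c
    have : (1:ℝ) / (1 + (c:ℝ)) ≠ 0 := by positivity
    exact_mod_cast this
  by_cases h0 : y i = 0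
  · by_cases h1 : g i + g j = 0
    · obtain ⟨k, hk⟩ := exists_w (𝕜 := 𝕜) i j 2
      refine ⟨k, ?_, ?_⟩
      · rw [hk]
        have : g i + (((2:ℕ):ℝ) : 𝕜) * g j = g j := by
          have h2 : g i = - g j := eq_neg_of_add_eq_zero_left h1
          rw [h2]; push_cast; ring
        rw [this]
        have hgj : g j ≠ 0 := by
          intro h; apply hi; rw [h] at h1; simpa using h1
        exact mul_ne_zero (hc 2) hgj
      · rw [hk, h0]
        refine mul_ne_zero (hc 2) ?_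
        rw [zero_add]
        exact mul_ne_zero (by norm_num) hj
    · obtain ⟨k, hk⟩ := exists_w (𝕜 := 𝕜) i j 1
      refine ⟨k, ?_, ?_⟩
      · rw [hk]
        refine mul_ne_zero (hc 1) ?_
        simpa using h1
      · rw [hk, h0]
        refine mul_ne_zero (hc 1) ?_
        simpa using hj
  · obtain ⟨k, hk⟩ := exists_w (𝕜 := 𝕜) i i 0
    refine ⟨k, ?_, ?_⟩ <;> rw [hk] <;> simpa

lemma norm_W_le (k : ℕ) (x : H 𝕜) : ‖W k x‖ ≤ ‖x‖ := by
  unfold W
  refine (norm_inner_le_norm _ _).trans ?_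
  have := norm_w_le (𝕜 := 𝕜) k
  nlinarith [norm_nonneg x]

/-- the modular -/
noncomputable def Phi (x : H 𝕜) : ℝ := ‖x‖ ^ 2 + ∑' k, (1/2 : ℝ) ^ k * ‖W k x‖ ^ (p k)

lemma rpow_le_aux {q t R : ℝ} (ht0 : 0 ≤ t) (hq0 : 0 ≤ q) (hq2 : q ≤ 2) (ht : t ≤ R) :
    t ^ q ≤ (1 + R) ^ 2 := by
  have h1 : t ^ q ≤ (1 + R) ^ q := by
    apply Real.rpow_le_rpow ht0 (by linarith) hq0
  have h2 : (1 + R) ^ q ≤ (1 + R) ^ (2:ℝ) := by
    apply Real.rpow_le_rpow_of_exponent_le _ hq2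
    linarith
  calc _ ≤ _ := h1
    _ ≤ _ := h2
    _ = _ := by norm_cast

lemma summable_geom : Summable (fun k : ℕ => (1/2 : ℝ) ^ k) :=
  summable_geometric_of_lt_one (by norm_num) (by norm_num)

lemma summable_Phi (x : H 𝕜) : Summable (fun k => (1/2 : ℝ) ^ k * ‖W k x‖ ^ (p k)) := by
  refine Summable.of_nonneg_of_le (fun k => ?_) (fun k => ?_) (summable_geom.mul_right ((1 + ‖x‖)^2))
  · positivity
  · have h1 := p_gt_one k
    have h2 := p_lt_two k
    have := rpow_le_aux (q := p k) (norm_nonneg (W k x)) (by linarith) h2.le (norm_W_le k x)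
    gcongr

lemma Phi_nonneg (x : H 𝕜) : 0 ≤ Phi x := by
  unfold Phi
  have : 0 ≤ ∑' k, (1/2 : ℝ) ^ k * ‖W k x‖ ^ (p k) := tsum_nonneg fun k => by positivity
  positivity

lemma Phi_zero : Phi (0 : H 𝕜) = 0 := by
  unfold Phi
  have : ∀ k, (1/2 : ℝ) ^ k * ‖W k (0:H 𝕜)‖ ^ (p k) = 0 := by
    intro k
    rw [W_zero, norm_zero, Real.zero_rpow (by have := p_gt_one k; linarith)]
    ring
  rw [tsum_congr this]
  simp

lemma norm_sq_le_Phi (x : H 𝕜) : ‖x‖ ^ 2 ≤ Phi x := by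
  unfold Phi
  have : 0 ≤ ∑' k, (1/2 : ℝ) ^ k * ‖W k x‖ ^ (p k) := tsum_nonneg fun k => by positivity
  linarith

lemma norm_ofReal_abs {t : ℝ} (ht : 0 ≤ t) : ‖(t : 𝕜)‖ = t := by
  rw [RCLike.norm_ofReal, abs_of_nonneg ht]

/-- scaling up -/
lemma Phi_smul_le {t : ℝ} (ht : 1 ≤ t) (x : H 𝕜) : Phi (t • x) ≤ t ^ 2 * Phi x := by
  unfold Phi
  have h1 : ‖t • x‖ ^ 2 = t ^ 2 * ‖x‖ ^ 2 := by
    rw [norm_smul, Real.norm_of_nonneg (by linarith)]; ring
  rw [h1, mul_add, ← tsum_mul_left]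
  have : ∑' k, (1/2 : ℝ) ^ k * ‖W k (t • x)‖ ^ (p k) ≤
      ∑' k, t ^ 2 * ((1/2 : ℝ) ^ k * ‖W k x‖ ^ (p k)) := by
    apply Summable.tsum_le_tsum _ (summable_Phi _) ((summable_Phi x).mul_left _)
    intro k
    rw [W_rsmul, norm_mul, norm_ofReal_abs (by linarith : (0:ℝ) ≤ t),
      Real.mul_rpow (by linarith) (norm_nonneg _)]
    have h2 : t ^ (p k) ≤ t ^ 2 := by
      calc t ^ (p k) ≤ t ^ (2:ℝ) := Real.rpow_le_rpow_of_exponent_le ht (p_lt_two k).le
        _ = t ^ 2 := by norm_cast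
    have h3 : 0 ≤ (1/2 : ℝ) ^ k * ‖W k x‖ ^ (p k) := by positivity
    calc (1/2 : ℝ) ^ k * (t ^ (p k) * ‖W k x‖ ^ (p k))
        = t ^ (p k) * ((1/2 : ℝ) ^ k * ‖W k x‖ ^ (p k)) := by ring
      _ ≤ _ := by gcongr
  linarith

/-- contractions of the scalar decrease the modular -/
lemma Phi_smul_le_of_norm_le_one {t : 𝕜} (ht : ‖t‖ ≤ 1) (x : H 𝕜) : Phi (t • x) ≤ Phi x := by
  unfold Phi
  have h1 : ‖t • x‖ ^ 2 ≤ ‖x‖ ^ 2 := by
    rw [norm_smul]
    have : ‖t‖ * ‖x‖ ≤ ‖x‖ := by nlinarith [norm_nonneg x]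
    gcongr
  have : ∑' k, (1/2 : ℝ) ^ k * ‖W k (t • x)‖ ^ (p k) ≤
      ∑' k, ((1/2 : ℝ) ^ k * ‖W k x‖ ^ (p k)) := by
    apply Summable.tsum_le_tsum _ (summable_Phi _) (summable_Phi x)
    intro k
    rw [W_smul, norm_mul]
    have := p_gt_one k
    have h2 : ‖t‖ * ‖W k x‖ ≤ ‖W k x‖ := by nlinarith [norm_nonneg (W k x)]
    gcongr
  linarith

/-- scaling down -/
lemma Phi_smul_le_of_le_one {t : ℝ} (ht0 : 0 ≤ t) (ht : t ≤ 1) (x : H 𝕜) : Phi (t • x) ≤ Phi x := by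
  rw [RCLike.real_smul_eq_coe_smul (K := 𝕜) t x]
  exact Phi_smul_le_of_norm_le_one (by rw [norm_ofReal_abs ht0]; exact ht) x

/-- convexity -/
lemma Phi_convex (x y : H 𝕜) {a b : ℝ} (ha : 0 ≤ a) (hb : 0 ≤ b) (hab : a + b = 1) :
    Phi (a • x + b • y) ≤ a * Phi x + b * Phi y := by
  unfold Phi
  have h1 : ‖a • x + b • y‖ ^ 2 ≤ a * ‖x‖ ^ 2 + b * ‖y‖ ^ 2 := by
    have h2 : ‖a • x + b • y‖ ≤ a * ‖x‖ + b * ‖y‖ := by
      refine (norm_add_le _ _).trans ?_
      rw [norm_smul, norm_smul, Real.norm_of_nonneg ha, Real.norm_of_nonneg hb]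
    have h3 : ‖a • x + b • y‖ ^ 2 ≤ (a * ‖x‖ + b * ‖y‖) ^ 2 := by gcongr
    have h4 : (a * ‖x‖ + b * ‖y‖) ^ 2 ≤ a * ‖x‖ ^ 2 + b * ‖y‖ ^ 2 := by
      have hb' : b = 1 - a := by linarith
      subst hb'
      nlinarith [mul_nonneg ha hb, sq_nonneg (‖x‖ - ‖y‖), mul_nonneg (mul_nonneg ha hb) (sq_nonneg (‖x‖ - ‖y‖))]
    linarith
  have h5 : ∑' k, (1/2 : ℝ) ^ k * ‖W k (a • x + b • y)‖ ^ (p k) ≤
      ∑' k, (a * ((1/2 : ℝ) ^ k * ‖W k x‖ ^ (p k)) + b * ((1/2 : ℝ) ^ k * ‖W k y‖ ^ (p k))) := by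
    apply Summable.tsum_le_tsum _ (summable_Phi _)
      (((summable_Phi x).mul_left _).add ((summable_Phi y).mul_left _))
    intro k
    rw [W_add, W_rsmul, W_rsmul]
    have hp := p_gt_one k
    have hc := (convexOn_rpow hp.le).2 (norm_nonneg (W k x)) (norm_nonneg (W k y)) ha hb hab
    simp only [smul_eq_mul] at hc
    have h6 : ‖(a : 𝕜) * W k x + (b : 𝕜) * W k y‖ ≤ a * ‖W k x‖ + b * ‖W k y‖ := by
      refine (norm_add_le _ _).trans ?_
      rw [norm_mul, norm_mul, norm_ofReal_abs ha, norm_ofReal_abs hb]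
    have h7 : ‖(a : 𝕜) * W k x + (b : 𝕜) * W k y‖ ^ (p k) ≤ (a * ‖W k x‖ + b * ‖W k y‖) ^ (p k) := by
      gcongr
    have h8 := h7.trans hc
    have h9 : (0:ℝ) ≤ (1/2 : ℝ) ^ k := by positivity
    calc _ ≤ (1/2 : ℝ) ^ k * (a * ‖W k x‖ ^ (p k) + b * ‖W k y‖ ^ (p k)) := by gcongr
      _ = _ := by ring
  rw [((summable_Phi x).mul_left a).tsum_add ((summable_Phi y).mul_left b), tsum_mul_left, tsum_mul_left] at h5
  linarith

variable (𝕜) in
/-- the unit ball of the new norm -/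
def K : Set (H 𝕜) := {x | Phi x ≤ 1}

lemma K_convex : Convex ℝ (K 𝕜) := by
  intro x hx y hy a b ha hb hab
  simp only [K, mem_ofPred_eq] at *
  have := Phi_convex x y ha hb hab
  nlinarith

lemma zero_mem_K : (0 : H 𝕜) ∈ K 𝕜 := by simp [K, Phi_zero]

lemma ball_subset_K : Metric.ball (0 : H 𝕜) (1/3) ⊆ K 𝕜 := by
  intro x hx
  rw [mem_ball_zero_iff] at hx
  simp only [K, mem_ofPred_eq, Phi]
  have h1 : ∑' k, (1/2 : ℝ) ^ k * ‖W k x‖ ^ (p k) ≤ ∑' k : ℕ, (1/2 : ℝ) ^ k * ‖x‖ := by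
    apply Summable.tsum_le_tsum _ (summable_Phi _) (summable_geom.mul_right _)
    intro k
    have hp := p_gt_one k
    have h2 : ‖W k x‖ ^ (p k) ≤ ‖x‖ := by
      have h3 := norm_W_le k x
      calc ‖W k x‖ ^ (p k) ≤ ‖x‖ ^ (p k) := by gcongr
        _ ≤ ‖x‖ ^ (1:ℝ) := Real.rpow_le_rpow_of_exponent_ge' (norm_nonneg _) (by linarith) (by norm_num) hp.le
        _ = ‖x‖ := Real.rpow_one _
    gcongr
  rw [tsum_mul_right, tsum_geometric_two] at h1
  nlinarith [norm_nonneg x]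

lemma K_mem_nhds : K 𝕜 ∈ 𝓝 (0 : H 𝕜) :=
  Filter.mem_of_superset (Metric.ball_mem_nhds _ (by norm_num)) ball_subset_K

lemma K_absorbent : Absorbent ℝ (K 𝕜) := absorbent_nhds_zero K_mem_nhds

lemma K_balanced : Balanced 𝕜 (K 𝕜) := by
  intro a ha x hx
  rw [mem_smul_set] at hx
  obtain ⟨y, hy, rfl⟩ := hx
  simp only [K, mem_ofPred_eq] at *
  exact (Phi_smul_le_of_norm_le_one ha y).trans hy

lemma K_subset : K 𝕜 ⊆ Metric.closedBall (0 : H 𝕜) 1 := by
  intro x hx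
  simp only [K, mem_ofPred_eq] at hx
  rw [mem_closedBall_zero_iff]
  have := norm_sq_le_Phi x
  nlinarith [norm_nonneg x]

/-- the new norm, as a function on `H` -/
noncomputable def N (x : H 𝕜) : ℝ := gauge (K 𝕜) x

lemma norm_le_N (x : H 𝕜) : ‖x‖ ≤ N x := by
  have := le_gauge_of_subset_closedBall (x := x) K_absorbent (by norm_num) K_subset
  simpa [N] using this

lemma N_le (x : H 𝕜) : N x ≤ 3 * ‖x‖ := by
  have := mul_gauge_le_norm (x := x) ball_subset_K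
  unfold N
  linarith

lemma N_nonneg (x : H 𝕜) : 0 ≤ N x := gauge_nonneg _

lemma N_add (x y : H 𝕜) : N (x + y) ≤ N x + N y := gauge_add_le K_convex K_absorbent x y

lemma N_smul (a : 𝕜) (x : H 𝕜) : N (a • x) = ‖a‖ * N x := gauge_smul K_balanced a x

lemma N_rsmul (a : ℝ) (x : H 𝕜) : N (a • x) = ‖a‖ * N x := by
  rw [RCLike.real_smul_eq_coe_smul (K := 𝕜) a x, N_smul, RCLike.norm_ofReal, Real.norm_eq_abs]

lemma Phi_le_of_N_le {x : H 𝕜} (hx : N x ≤ 1) : Phi x ≤ 1 := by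
  have h1 : ∀ δ : ℝ, 0 < δ → Phi x ≤ (1 + δ) ^ 2 := by
    intro δ hδ
    obtain ⟨b, hb0, hb1, y, hy, hyx⟩ := exists_lt_of_gauge_lt (a := 1 + δ) K_absorbent (show gauge (K 𝕜) x < 1 + δ by
      unfold N at hx; linarith)
    simp only at hyx
    rw [← hyx]
    simp only [K, mem_ofPred_eq] at hy
    rcases le_total b 1 with h | h
    · have := Phi_smul_le_of_le_one hb0.le h y
      nlinarith
    · have := Phi_smul_le h y
      have h3 := Phi_nonneg y
      have h4 : b ^ 2 * Phi y ≤ b ^ 2 := by nlinarith [sq_nonneg b]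
      have h5 : b ^ 2 ≤ (1 + δ) ^ 2 := by gcongr
      linarith
  by_contra hcon
  push Not at hcon
  have h2 := h1 (min 1 ((Phi x - 1) / 4)) (by
    apply lt_min (by norm_num); linarith)
  have h3 : min 1 ((Phi x - 1) / 4) ≤ 1 := min_le_left _ _
  have h4 : min 1 ((Phi x - 1) / 4) ≤ (Phi x - 1) / 4 := min_le_right _ _
  have h5 : 0 < min 1 ((Phi x - 1) / 4) := by
    apply lt_min (by norm_num); linarith
  nlinarith

lemma one_le_Phi_of_N {x : H 𝕜} (hx : 1 ≤ N x) : 1 ≤ Phi x := by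
  by_contra hcon
  push Not at hcon
  have h0 := Phi_nonneg x
  obtain ⟨t, ht1, ht2⟩ : ∃ t : ℝ, 1 < t ∧ t ^ 2 * Phi x ≤ 1 := by
    refine ⟨1 + (1 - Phi x) / 4, by linarith, ?_⟩
    nlinarith [mul_nonneg h0 (by linarith : 0 ≤ 1 - Phi x), mul_nonneg h0 (mul_nonneg (by linarith : 0 ≤ 1 - Phi x) (by linarith : 0 ≤ 1 - Phi x))]
  have h1 : Phi (t • x) ≤ 1 := (Phi_smul_le ht1.le x).trans ht2
  have h2 : N (t • x) ≤ 1 := gauge_le_one_of_mem h1
  rw [N_rsmul, Real.norm_of_nonneg (by linarith)] at h2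
  nlinarith

/-- the derivative terms -/
noncomputable def term (x y : H 𝕜) (k : ℕ) : ℝ :=
  (1/2 : ℝ) ^ k * (p k * RCLike.re (starRingEnd 𝕜 (psi (p k) (W k x)) * W k y))

lemma abs_re_conj_mul_le (a b : 𝕜) : |RCLike.re (starRingEnd 𝕜 a * b)| ≤ ‖a‖ * ‖b‖ := by
  refine (RCLike.abs_re_le_norm _).trans ?_
  rw [norm_mul, RCLike.norm_conj]

lemma abs_term_le (x y : H 𝕜) (k : ℕ) {R : ℝ} (hx : ‖x‖ ≤ R) :
    |term x y k| ≤ (1/2 : ℝ) ^ k * (2 * ((1 + R) ^ 2 * ‖y‖)) := by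
  unfold term
  have h1 := p_gt_one k
  have h2 := p_lt_two k
  have h3 := norm_W_le k x
  have h4 := norm_W_le k y
  have h5 : ‖psi (p k) (W k x)‖ ≤ (1 + R) ^ 2 := by
    rw [norm_psi h1]
    exact rpow_le_aux (norm_nonneg _) (by linarith) (by linarith) (h3.trans hx)
  rw [abs_mul, abs_mul, abs_of_nonneg (by positivity : (0:ℝ) ≤ (1/2 : ℝ) ^ k),
    abs_of_pos (by linarith : 0 < p k)]
  have h6 := abs_re_conj_mul_le (psi (p k) (W k x)) (W k y)
  have : 0 ≤ (1 + R) ^ 2 := by positivity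
  have h7 : |RCLike.re (starRingEnd 𝕜 (psi (p k) (W k x)) * W k y)| ≤ (1 + R) ^ 2 * ‖y‖ := by
    refine h6.trans ?_
    gcongr
  gcongr

lemma summable_term (x y : H 𝕜) : Summable (term x y) := by
  refine Summable.of_norm_bounded (summable_geom.mul_right (2 * ((1 + ‖x‖) ^ 2 * ‖y‖))) ?_
  intro k
  exact abs_term_le x y k le_rfl

/-- the derivative of the modular in the direction `y` -/
noncomputable def D (x y : H 𝕜) : ℝ := 2 * RCLike.re (inner 𝕜 x y) + ∑' k, term x y k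

/-- derivative of a power of the norm along a line of a real inner product space -/
lemma line_real {V : Type} [NormedAddCommGroup V] [InnerProductSpace ℝ V] (c d : V) (a : ℝ) {q : ℝ}
    (hq : 1 < q) : HasDerivAt (fun t : ℝ => ‖c + t • d‖ ^ q)
      (q * ‖c + a • d‖ ^ (q - 2) * inner ℝ (c + a • d) d) a := by
  have h1 := hasFDerivAt_norm_rpow (c + a • d) hq
  have h2 : HasDerivAt (fun t : ℝ => c + t • d) d a := by
    have h3 : HasDerivAt (fun t : ℝ => t • d) ((1:ℝ) • d) a := (hasDerivAt_id a).smul_const d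
    rw [one_smul] at h3
    exact h3.const_add c
  have h5 := h1.comp_hasDerivAt a h2
  refine h5.congr_deriv ?_
  simp only [FunLike.coe_smul, Pi.smul_apply, innerSL_apply_apply, smul_eq_mul]

/-- derivative of a power of the modulus along a real line -/
lemma hasDerivAt_norm_rpow_line (c d : 𝕜) (a : ℝ) {q : ℝ} (hq : 1 < q) :
    HasDerivAt (fun t : ℝ => ‖c + (t : 𝕜) * d‖ ^ q)
      (q * RCLike.re (starRingEnd 𝕜 (psi q (c + (a : 𝕜) * d)) * d)) a := by
  have h := @line_real 𝕜 _ (InnerProductSpace.rclikeToReal 𝕜 𝕜) c d a q hq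
  refine HasDerivAt.congr_deriv (f' := q * ‖c + (a : 𝕜) * d‖ ^ (q - 2) *
    RCLike.re (inner 𝕜 (c + (a : 𝕜) * d) d)) ?_ ?_
  · exact h
  · unfold psi
    rw [(starRingEnd 𝕜).map_mul, RCLike.conj_ofReal, mul_assoc, mul_assoc, RCLike.re_ofReal_mul]
    congr 2
    rw [RCLike.inner_apply, mul_comm]

lemma re_inner_add_rsmul (x y : H 𝕜) (a : ℝ) :
    ‖x + a • y‖ ^ 2 = ‖x‖ ^ 2 + 2 * RCLike.re (inner 𝕜 x y) * a + ‖y‖ ^ 2 * a ^ 2 := by
  rw [@norm_add_sq 𝕜, RCLike.real_smul_eq_coe_smul (K := 𝕜) a y, inner_smul_right, RCLike.re_ofReal_mul,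
    norm_smul, RCLike.norm_ofReal, mul_pow, sq_abs]
  ring

lemma hasDerivAt_Phi (x y : H 𝕜) : HasDerivAt (fun a : ℝ => Phi (x + a • y)) (D x y) 0 := by
  unfold Phi D
  have h1 : HasDerivAt (fun a : ℝ => ‖x + a • y‖ ^ 2) (2 * RCLike.re (inner 𝕜 x y)) 0 := by
    have h2 : HasDerivAt (fun a : ℝ => ‖x‖ ^ 2 + 2 * RCLike.re (inner 𝕜 x y) * a + ‖y‖ ^ 2 * a ^ 2)
        (2 * RCLike.re (inner 𝕜 x y) * 1 + ‖y‖ ^ 2 * ((2:ℕ) * (0:ℝ) ^ (2 - 1))) 0 := by
      have h3 := ((hasDerivAt_id (0:ℝ)).const_mul (2 * RCLike.re (inner 𝕜 x y))).const_add (‖x‖ ^ 2)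
      have h4 := (hasDerivAt_pow 2 (0:ℝ)).const_mul (‖y‖ ^ 2)
      exact h3.add h4
    have h3 : (2 * RCLike.re (inner 𝕜 x y) * 1 + ‖y‖ ^ 2 * ((2:ℕ) * (0:ℝ) ^ (2 - 1)))
        = 2 * RCLike.re (inner 𝕜 x y) := by norm_num
    rw [h3] at h2
    refine h2.congr_of_eventuallyEq ?_
    filter_upwards with a
    exact re_inner_add_rsmul x y a
  refine h1.add ?_
  have h0 : ∀ k, term x y k = term (x + (0:ℝ) • y) y k := by intro k; simp
  rw [tsum_congr h0]
  refine hasDerivAt_tsum_of_isPreconnected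
    (g := fun k a => (1/2 : ℝ) ^ k * ‖W k (x + a • y)‖ ^ (p k))
    (g' := fun k a => term (x + a • y) y k)
    (u := fun k => (1/2 : ℝ) ^ k * (2 * ((1 + (‖x‖ + ‖y‖)) ^ 2 * ‖y‖)))
    (t := Ioo (-1) 1) (summable_geom.mul_right _) isOpen_Ioo isPreconnected_Ioo ?_ ?_
    (y₀ := 0) (by simp) (summable_Phi _) (by simp)
  · intro k a ha
    have h5 := (hasDerivAt_norm_rpow_line (W k x) (W k y) a (p_gt_one k)).const_mul ((1/2 : ℝ) ^ k)
    have e1 : ∀ b : ℝ, W k (x + b • y) = W k x + (b : 𝕜) * W k y := by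
      intro b; rw [W_add, W_rsmul]
    have h6 : (fun b : ℝ => (1/2 : ℝ) ^ k * ‖W k (x + b • y)‖ ^ (p k)) =
        fun b : ℝ => (1/2 : ℝ) ^ k * ‖W k x + (b : 𝕜) * W k y‖ ^ (p k) := by
      funext b; rw [e1]
    rw [h6]
    refine h5.congr_deriv ?_
    unfold term
    rw [e1]
  · intro k a ha
    refine abs_term_le _ _ _ ?_
    refine (norm_add_le _ _).trans ?_
    rw [norm_smul]
    have : ‖a‖ ≤ 1 := by
      rw [Real.norm_eq_abs, abs_le]
      exact ⟨ha.1.le, ha.2.le⟩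
    nlinarith [norm_nonneg y]

/-- the first order condition -/
lemma D_eq_zero {x y : H 𝕜} (hx : N x = 1) (h : ∀ a : ℝ, N x ≤ N (x + a • y)) : D x y = 0 := by
  have hmin : IsLocalMin (fun a : ℝ => Phi (x + a • y)) 0 := by
    refine Filter.Eventually.of_forall fun a => ?_
    have h1 : Phi x ≤ 1 := Phi_le_of_N_le hx.le
    have h2 : 1 ≤ Phi (x + a • y) := one_le_Phi_of_N (by rw [← hx]; exact h a)
    simp only [zero_smul, add_zero]
    linarith
  exact hmin.hasDerivAt_eq_zero (hasDerivAt_Phi x y)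

/-- The analytic heart: at the first index `k` for which the functional neither vanishes at `y` nor
on the plane, the singularity of the derivative cannot be compensated. -/
lemma singular {u v y : H 𝕜} {k : ℕ} (hu : N u = 1) (hku : W k u = 0) (hkv : W k v ≠ 0)
    (hv : N v ≤ 1) (hky : RCLike.re (starRingEnd 𝕜 (W k v) * W k y) ≠ 0)
    (hlow : ∀ j < k, W j y = 0 ∨ (W j u = 0 ∧ W j v = 0))
    (hD : ∀ s : ℝ, 0 ≤ s → s < 1 → D ((N (u + s • v))⁻¹ • (u + s • v)) y = 0) : False := by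
  set q : ℝ := p k - 1 with hq
  set q' : ℝ := p (k+1) - 1 with hq'
  have hqq : q < q' := by have := p_strictMono (Nat.lt_succ_self k); simp only [hq, hq']; linarith
  have hq0 : 0 < q := by have := p_gt_one k; simp only [hq]; linarith
  have hq1 : q < 1 := by have := p_lt_two k; simp only [hq]; linarith
  have hq'1 : q' < 1 := by have := p_lt_two (k+1); simp only [hq']; linarith
  -- constants
  set ρ : ℝ := |RCLike.re (starRingEnd 𝕜 (W k v) * W k y)| with hρ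
  have hρ0 : 0 < ρ := abs_pos.mpr hky
  have hω0 : 0 < ‖W k v‖ := norm_pos_iff.mpr hkv
  set c : ℝ := (1/2 : ℝ) ^ k * (p k * ((1/2) ^ q * ‖W k v‖ ^ (q - 1) * ρ)) with hc
  have hc0 : 0 < c := by
    have := p_gt_one k
    have h3 : 0 < p k := by linarith
    positivity
  -- the main inequality
  have main : ∀ s : ℝ, 0 < s → s < 1/2 → c * s ^ q ≤ 10 * ‖y‖ * (2 * s) ^ q' := by
    intro s hs0 hs1
    set a : H 𝕜 := (N (u + s • v))⁻¹ • (u + s • v) with ha
    have hN1 : N (u + s • v) ≤ 2 := by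
      have := N_add u (s • v)
      rw [N_rsmul, Real.norm_of_nonneg hs0.le] at this
      nlinarith [N_nonneg v]
    have hN2 : 1 - s ≤ N (u + s • v) := by
      have := N_add (u + s • v) ((-s) • v)
      have e1 : u + s • v + (-s) • v = u := by rw [neg_smul]; abel
      rw [e1, N_rsmul, norm_neg, Real.norm_of_nonneg hs0.le, hu] at this
      nlinarith [N_nonneg v]
    have hN3 : N (u + s • v) ≤ 1 + s := by
      have := N_add u (s • v)
      rw [N_rsmul, Real.norm_of_nonneg hs0.le] at this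
      nlinarith [N_nonneg v]
    have hN0 : 0 < N (u + s • v) := by linarith
    -- distance from a to u
    have hau : ‖a - u‖ ≤ 2 * s := by
      refine (norm_le_N _).trans ?_
      have e1 : a - u = ((N (u + s • v))⁻¹ - 1) • (u + s • v) + s • v := by
        rw [ha, sub_smul, one_smul]; abel
      rw [e1]
      refine (N_add _ _).trans ?_
      rw [N_rsmul, N_rsmul, Real.norm_of_nonneg hs0.le]
      have e2 : ‖(N (u + s • v))⁻¹ - 1‖ * N (u + s • v) = |1 - N (u + s • v)| := by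
        rw [Real.norm_eq_abs]
        nth_rewrite 2 [← abs_of_pos hN0]
        rw [← abs_mul, sub_mul, inv_mul_cancel₀ hN0.ne', one_mul]
      rw [e2]
      have e3 : |1 - N (u + s • v)| ≤ s := by
        rw [abs_le]; constructor <;> linarith
      nlinarith [N_nonneg v]
    have hDa : D a y = 0 := hD s hs0.le (by linarith)
    have hDu : D u y = 0 := by
      have := hD 0 le_rfl (by norm_num)
      simpa [hu] using this
    -- difference
    have hdiff : 2 * RCLike.re (inner 𝕜 (a - u) y) + ∑' j, (term a y j - term u y j) = 0 := by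
      rw [(summable_term a y).tsum_sub (summable_term u y), inner_sub_left, map_sub]
      unfold D at hDa hDu
      linarith
    rw [((summable_term a y).sub (summable_term u y)).tsum_eq_add_tsum_ite k] at hdiff
    have hrest : ‖∑' j, (if j = k then (0:ℝ) else (term a y j - term u y j))‖ ≤ 8 * ‖y‖ * (2 * s) ^ q' := by
      have hsum : HasSum (fun j : ℕ => (1/2 : ℝ) ^ j * (4 * ‖y‖ * (2 * s) ^ q')) (2 * (4 * ‖y‖ * (2 * s) ^ q')) := by
        have := (summable_geom).hasSum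
        rw [tsum_geometric_two] at this
        exact this.mul_right _
      have e8 : 8 * ‖y‖ * (2 * s) ^ q' = 2 * (4 * ‖y‖ * (2 * s) ^ q') := by ring
      rw [e8]
      refine tsum_of_norm_bounded hsum ?_
      intro j
      have hnn : (0:ℝ) ≤ (1/2 : ℝ) ^ j * (4 * ‖y‖ * (2 * s) ^ q') := by positivity
      split_ifs with hj
      · simpa using hnn
      · rcases lt_or_gt_of_ne hj with hjk | hjk
        · -- j < k
          have : term a y j - term u y j = 0 := by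
            rcases hlow j hjk with h | ⟨h1, h2⟩
            · simp [term, h]
            · have h3 : W j a = 0 := by
                rw [ha, W_rsmul, W_add, W_rsmul, h1, h2]; ring
              simp [term, h3, h1, psi_zero]
          rw [this]; simpa using hnn
        · -- k < j
          have hp1 := p_gt_one j
          have hp2 := p_lt_two j
          have e1 : term a y j - term u y j =
              (1/2 : ℝ) ^ j * (p j * RCLike.re (starRingEnd 𝕜 (psi (p j) (W j a) - psi (p j) (W j u)) * W j y)) := by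
            unfold term; rw [(starRingEnd 𝕜).map_sub, sub_mul, map_sub]; ring
          rw [e1, Real.norm_eq_abs, abs_mul, abs_mul, abs_of_nonneg (by positivity : (0:ℝ) ≤ (1/2 : ℝ) ^ j),
            abs_of_pos (by linarith : 0 < p j)]
          have h1 := psi_sub_le hp1 hp2.le (W j a) (W j u)
          have h2 : ‖W j a - W j u‖ ≤ 2 * s := by
            rw [← W_sub]
            exact (norm_W_le _ _).trans hau
          have h3 : ‖W j a - W j u‖ ^ (p j - 1) ≤ (2 * s) ^ q' := by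
            calc ‖W j a - W j u‖ ^ (p j - 1) ≤ (2 * s) ^ (p j - 1) := by
                  apply Real.rpow_le_rpow (norm_nonneg _) h2 (by linarith)
              _ ≤ (2 * s) ^ q' := by
                  apply Real.rpow_le_rpow_of_exponent_ge (by linarith) (by linarith)
                  have := p_strictMono.monotone (Nat.succ_le_of_lt hjk)
                  simp only [hq']
                  have e : p (k+1) = p (Nat.succ k) := rfl
                  rw [e]; linarith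
          have h4 := norm_W_le j y
          have h5 : ‖psi (p j) (W j a) - psi (p j) (W j u)‖ ≤ 2 * (2 * s) ^ q' := by linarith
          have h6 : 0 ≤ (2 * s) ^ q' := by positivity
          have h7 := abs_re_conj_mul_le (psi (p j) (W j a) - psi (p j) (W j u)) (W j y)
          calc (1/2 : ℝ) ^ j * (p j * |RCLike.re (starRingEnd 𝕜 (psi (p j) (W j a) - psi (p j) (W j u)) * W j y)|)
              ≤ (1/2 : ℝ) ^ j * (2 * (‖psi (p j) (W j a) - psi (p j) (W j u)‖ * ‖W j y‖)) := by gcongr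
            _ ≤ (1/2 : ℝ) ^ j * (2 * ((2 * (2 * s) ^ q') * ‖y‖)) := by gcongr
            _ = _ := by ring
    -- the singular term
    have hWa : W k a = (((N (u + s • v))⁻¹ * s : ℝ) : 𝕜) * W k v := by
      rw [ha, W_rsmul, W_add, W_rsmul, hku, zero_add, ← mul_assoc, ← RCLike.ofReal_mul]
    have hr0 : 0 < (N (u + s • v))⁻¹ * s := mul_pos (inv_pos.mpr hN0) hs0
    have hmain : |term a y k - term u y k| =
        (1/2 : ℝ) ^ k * (p k * (((N (u + s • v))⁻¹ * s) ^ q * ‖W k v‖ ^ (q - 1) * ρ)) := by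
      have e1 : term u y k = 0 := by simp [term, hku, psi_zero]
      rw [e1, sub_zero]
      unfold term psi
      have hp1 := p_gt_one k
      rw [hWa, norm_mul, norm_ofReal_abs hr0.le, Real.mul_rpow hr0.le hω0.le]
      set r : ℝ := (N (u + s • v))⁻¹ * s with hr
      have e2 : starRingEnd 𝕜 (((r ^ (p k - 2) * ‖W k v‖ ^ (p k - 2) : ℝ) : 𝕜) * ((r : 𝕜) * W k v)) * W k y
          = ((r ^ q * ‖W k v‖ ^ (q - 1) : ℝ) : 𝕜) * (starRingEnd 𝕜 (W k v) * W k y) := by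
        rw [(starRingEnd 𝕜).map_mul, (starRingEnd 𝕜).map_mul, RCLike.conj_ofReal, RCLike.conj_ofReal]
        have e3 : r ^ q = r ^ (p k - 2) * r := by
          have : q = (p k - 2) + 1 := by simp only [hq]; ring
          rw [this, Real.rpow_add hr0, Real.rpow_one]
        have e4 : q - 1 = p k - 2 := by simp only [hq]; ring
        rw [e3, e4]
        push_cast
        ring
      rw [e2, RCLike.re_ofReal_mul, abs_mul, abs_mul, abs_mul, abs_of_nonneg (by positivity : (0:ℝ) ≤ (1/2 : ℝ) ^ k),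
            abs_of_pos (by linarith : 0 < p k), abs_of_nonneg (by positivity : (0:ℝ) ≤ r ^ q * ‖W k v‖ ^ (q - 1))]
    have hrs : s * (1/2) ≤ (N (u + s • v))⁻¹ * s := by
      have h1 : (2:ℝ)⁻¹ ≤ (N (u + s • v))⁻¹ := by
        apply inv_anti₀ hN0 hN1
      calc s * (1/2) = (2:ℝ)⁻¹ * s := by ring
        _ ≤ _ := by gcongr
    have h1 : c * s ^ q ≤ |term a y k - term u y k| := by
      rw [hmain, hc]
      have e1 : (s * (1/2)) ^ q ≤ ((N (u + s • v))⁻¹ * s) ^ q := by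
        apply Real.rpow_le_rpow (by positivity) hrs hq0.le
      rw [Real.mul_rpow hs0.le (by positivity)] at e1
      have hp1 := p_gt_one k
      have hp0 : 0 ≤ p k := by linarith
      calc _ = (1/2 : ℝ) ^ k * (p k * ((s ^ q * (1/2) ^ q) * ‖W k v‖ ^ (q - 1) * ρ)) := by ring
        _ ≤ _ := by gcongr
    have h2 : |term a y k - term u y k| ≤ |2 * RCLike.re (inner 𝕜 (a - u) y)| + ‖∑' j, (if j = k then (0:ℝ) else (term a y j - term u y j))‖ := by
      have e1 : term a y k - term u y k = -(2 * RCLike.re (inner 𝕜 (a - u) y)) - ∑' j, (if j = k then (0:ℝ) else (term a y j - term u y j)) := by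
        linarith
      rw [e1]
      refine (abs_sub _ _).trans ?_
      rw [abs_neg, Real.norm_eq_abs]
    have h3 : |2 * RCLike.re (inner 𝕜 (a - u) y)| ≤ 2 * ‖y‖ * (2 * s) ^ q' := by
      rw [abs_mul, abs_of_pos (by norm_num : (0:ℝ) < 2)]
      have e1 : |RCLike.re (inner 𝕜 (a - u) y)| ≤ ‖a - u‖ * ‖y‖ :=
        (RCLike.abs_re_le_norm _).trans (norm_inner_le_norm _ _)
      have e2 : 2 * s ≤ (2 * s) ^ q' := by
        calc 2 * s = (2 * s) ^ (1:ℝ) := (Real.rpow_one _).symm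
          _ ≤ _ := Real.rpow_le_rpow_of_exponent_ge (by linarith) (by linarith) hq'1.le
      have e3 : ‖a - u‖ * ‖y‖ ≤ (2 * s) ^ q' * ‖y‖ := by
        have := norm_nonneg y
        have := hau.trans e2
        gcongr
      nlinarith
    linarith
  -- let s tend to zero
  have hlim : Tendsto (fun s : ℝ => 10 * ‖y‖ * 2 ^ q' * s ^ (q' - q)) (𝓝[>] 0) (𝓝 (10 * ‖y‖ * 2 ^ q' * 0)) := by
    apply Tendsto.const_mul
    have h1 : Tendsto (fun s : ℝ => s ^ (q' - q)) (𝓝 0) (𝓝 ((0:ℝ) ^ (q' - q))) :=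
      (Real.continuousAt_rpow_const 0 (q' - q) (Or.inr (by linarith))).tendsto
    rw [Real.zero_rpow (by linarith)] at h1
    exact h1.mono_left nhdsWithin_le_nhds
  rw [mul_zero] at hlim
  have hev : ∀ᶠ s in 𝓝[>] (0:ℝ), c ≤ 10 * ‖y‖ * 2 ^ q' * s ^ (q' - q) := by
    have h2 : Ioo (0:ℝ) (1/2) ∈ 𝓝[>] (0:ℝ) := Ioo_mem_nhdsGT (by norm_num)
    filter_upwards [h2] with s hs
    have h3 := main s hs.1 hs.2
    have h4 : 0 < s ^ q := Real.rpow_pos_of_pos hs.1 _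
    rw [Real.mul_rpow (by norm_num) hs.1.le] at h3
    have h5 : s ^ q' = s ^ q * s ^ (q' - q) := by
      rw [← Real.rpow_add hs.1]; congr 1; ring
    rw [h5] at h3
    have h6 : s ^ q * c ≤ s ^ q * (10 * ‖y‖ * 2 ^ q' * s ^ (q' - q)) := by
      calc s ^ q * c = c * s ^ q := by ring
        _ ≤ _ := h3
        _ = _ := by ring
    exact le_of_mul_le_mul_left h6 h4
  have := ge_of_tendsto hlim hev
  linarith

/-- No plane is Birkhoff orthogonal to a nonzero vector for the norm `N`. -/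
lemma no_strong (g h y : H 𝕜) (hlin : ∀ a b : 𝕜, a • g + b • h = 0 → a = 0 ∧ b = 0) (hy : y ≠ 0)
    (hG : ∀ (a b : 𝕜) (t : 𝕜), N (a • g + b • h) ≤ N (a • g + b • h + t • y)) : False := by
  classical
  have hg : g ≠ 0 := by
    intro hg0
    have := hlin 1 0 (by simp [hg0])
    exact one_ne_zero this.1
  have hex : ∃ k, (W k g ≠ 0 ∨ W k h ≠ 0) ∧ W k y ≠ 0 := by
    obtain ⟨k, hk1, hk2⟩ := exists_w_ne g y hg hy
    exact ⟨k, Or.inl hk1, hk2⟩
  set k := Nat.find hex with hk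
  obtain ⟨hk1, hk2⟩ := Nat.find_spec hex
  rw [← hk] at hk1 hk2
  have hlow : ∀ j < k, W j y = 0 ∨ (W j g = 0 ∧ W j h = 0) := by
    intro j hj
    have := Nat.find_min hex hj
    push Not at this
    by_cases h1 : W j y = 0
    · exact Or.inl h1
    · right
      by_contra h2
      apply h1
      apply this
      by_contra h3
      push Not at h3
      exact h2 h3
  -- the vector in the kernel
  set a₀ : 𝕜 := W k h with ha₀
  set b₀ : 𝕜 := - W k g with hb₀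
  set u₀ : H 𝕜 := a₀ • g + b₀ • h with hu₀
  have hu₀0 : u₀ ≠ 0 := by
    intro h0
    obtain ⟨h1, h2⟩ := hlin a₀ b₀ h0
    rcases hk1 with h3 | h3
    · apply h3; rw [hb₀] at h2; exact neg_eq_zero.mp h2
    · exact h3 h1
  have hNu₀ : 0 < N u₀ := lt_of_lt_of_le (norm_pos_iff.mpr hu₀0) (norm_le_N _)
  -- the other vector
  obtain ⟨a₂, b₂, hv₂⟩ : ∃ a₂ b₂ : 𝕜, W k (a₂ • g + b₂ • h) ≠ 0 := by
    rcases hk1 with h3 | h3
    · exact ⟨1, 0, by simpa using h3⟩
    · exact ⟨0, 1, by simpa using h3⟩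
  set ζ : 𝕜 := W k y * starRingEnd 𝕜 (W k (a₂ • g + b₂ • h)) with hζ
  set a₁ : 𝕜 := ζ * a₂ with ha₁
  set b₁ : 𝕜 := ζ * b₂ with hb₁
  set v₀ : H 𝕜 := a₁ • g + b₁ • h with hv₀d
  have hv₀2 : v₀ = ζ • (a₂ • g + b₂ • h) := by
    rw [hv₀d, ha₁, hb₁, smul_add, smul_smul, smul_smul]
  have hζ0 : ζ ≠ 0 := mul_ne_zero hk2 (by simpa using hv₂)
  have hv₀ : W k v₀ ≠ 0 := by
    rw [hv₀2, W_smul]
    exact mul_ne_zero hζ0 hv₂
  have hre : RCLike.re (starRingEnd 𝕜 (W k v₀) * W k y) ≠ 0 := by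
    have e1 : starRingEnd 𝕜 (W k v₀) * W k y =
        ((‖W k y‖ ^ 2 * ‖starRingEnd 𝕜 (W k (a₂ • g + b₂ • h)) * W k (a₂ • g + b₂ • h)‖ : ℝ) : 𝕜) := by
      set ω : 𝕜 := W k (a₂ • g + b₂ • h) with hω
      rw [hv₀2, W_smul, hζ, (starRingEnd 𝕜).map_mul, (starRingEnd 𝕜).map_mul, RCLike.conj_conj, norm_mul,
        RCLike.norm_conj]
      push_cast
      have e2 : ((‖W k y‖ : ℝ) : 𝕜) ^ 2 = starRingEnd 𝕜 (W k y) * W k y := by
        rw [RCLike.conj_mul]
      have e3 : ((‖ω‖ : ℝ) : 𝕜) * ((‖ω‖ : ℝ) : 𝕜) = starRingEnd 𝕜 ω * ω := by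
        rw [RCLike.conj_mul]; ring
      rw [e2, e3]
      ring
    rw [e1, RCLike.ofReal_re]
    have h1 : 0 < ‖W k y‖ := norm_pos_iff.mpr hk2
    have h2 : 0 < ‖starRingEnd 𝕜 (W k (a₂ • g + b₂ • h)) * W k (a₂ • g + b₂ • h)‖ := by
      rw [norm_mul, RCLike.norm_conj]
      have := norm_pos_iff.mpr hv₂
      positivity
    positivity
  have hv₀0 : v₀ ≠ 0 := by
    intro h0; apply hv₀; rw [h0, W_zero]
  have hNv₀ : 0 < N v₀ := lt_of_lt_of_le (norm_pos_iff.mpr hv₀0) (norm_le_N _)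
  refine singular (u := (N u₀)⁻¹ • u₀) (v := (N v₀)⁻¹ • v₀) (y := y) (k := k) ?_ ?_ ?_ ?_ ?_ ?_ ?_
  · rw [N_rsmul, Real.norm_of_nonneg (inv_nonneg.mpr hNu₀.le), inv_mul_cancel₀ hNu₀.ne']
  · rw [W_rsmul, hu₀, W_add, W_smul, W_smul, ha₀, hb₀]
    ring
  · rw [W_rsmul]
    refine mul_ne_zero ?_ hv₀
    have : (N v₀)⁻¹ ≠ 0 := inv_ne_zero hNv₀.ne'
    exact_mod_cast this
  · rw [N_rsmul, Real.norm_of_nonneg (inv_nonneg.mpr hNv₀.le), inv_mul_cancel₀ hNv₀.ne']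
  · rw [W_rsmul, (starRingEnd 𝕜).map_mul, RCLike.conj_ofReal, mul_assoc, RCLike.re_ofReal_mul]
    exact mul_ne_zero (inv_ne_zero hNv₀.ne') hre
  · intro j hj
    rcases hlow j hj with h1 | ⟨h1, h2⟩
    · exact Or.inl h1
    · right
      constructor
      · rw [W_rsmul, hu₀, W_add, W_smul, W_smul, h1, h2]; ring
      · rw [W_rsmul, hv₀d, W_add, W_smul, W_smul, h1, h2]; ring
  · intro s hs0 hs1
    -- the point lies in the plane
    set z : H 𝕜 := (N u₀)⁻¹ • u₀ + s • ((N v₀)⁻¹ • v₀) with hz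
    have hzN : 0 < N z := by
      have h1 := N_add z ((-s) • ((N v₀)⁻¹ • v₀))
      have e1 : z + (-s) • ((N v₀)⁻¹ • v₀) = (N u₀)⁻¹ • u₀ := by rw [hz, neg_smul]; abel
      rw [e1, N_rsmul, N_rsmul, N_rsmul, norm_neg, Real.norm_of_nonneg hs0,
        Real.norm_of_nonneg (inv_nonneg.mpr hNv₀.le), inv_mul_cancel₀ hNv₀.ne',
        Real.norm_of_nonneg (inv_nonneg.mpr hNu₀.le), inv_mul_cancel₀ hNu₀.ne'] at h1
      linarith
    obtain ⟨α, β, hαβ⟩ : ∃ α β : 𝕜, (N z)⁻¹ • z = α • g + β • h := by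
      have hz2 : z = ((((N u₀)⁻¹ : ℝ) : 𝕜) * a₀ + ((s * (N v₀)⁻¹ : ℝ) : 𝕜) * a₁) • g +
          ((((N u₀)⁻¹ : ℝ) : 𝕜) * b₀ + ((s * (N v₀)⁻¹ : ℝ) : 𝕜) * b₁) • h := by
        rw [hz, smul_smul s, RCLike.real_smul_eq_coe_smul (K := 𝕜) (N u₀)⁻¹,
          RCLike.real_smul_eq_coe_smul (K := 𝕜) (s * (N v₀)⁻¹), hu₀, hv₀d]
        simp only [smul_add, smul_smul, add_smul]
        abel
      refine ⟨(((N z)⁻¹ : ℝ) : 𝕜) * ((((N u₀)⁻¹ : ℝ) : 𝕜) * a₀ + ((s * (N v₀)⁻¹ : ℝ) : 𝕜) * a₁),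
        (((N z)⁻¹ : ℝ) : 𝕜) * ((((N u₀)⁻¹ : ℝ) : 𝕜) * b₀ + ((s * (N v₀)⁻¹ : ℝ) : 𝕜) * b₁), ?_⟩
      rw [RCLike.real_smul_eq_coe_smul (K := 𝕜) (N z)⁻¹]
      refine (congrArg (fun x : H 𝕜 => (((N z)⁻¹ : ℝ) : 𝕜) • x) hz2).trans ?_
      simp only [smul_add, smul_smul]
    apply D_eq_zero
    · rw [N_rsmul, Real.norm_of_nonneg (inv_nonneg.mpr hzN.le), inv_mul_cancel₀ hzN.ne']
    · intro t
      rw [hαβ, RCLike.real_smul_eq_coe_smul (K := 𝕜) t y]
      exact hG α β t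

variable (𝕜) in
/-- the renormed space -/
def E : Type := H 𝕜

noncomputable instance : AddCommGroup (E 𝕜) := inferInstanceAs (AddCommGroup (H 𝕜))

noncomputable instance : Module 𝕜 (E 𝕜) := inferInstanceAs (Module 𝕜 (H 𝕜))

noncomputable instance : Norm (E 𝕜) := ⟨fun x => N x⟩

lemma norm_def (x : E 𝕜) : ‖x‖ = N x := rfl

lemma core : NormedSpace.Core 𝕜 (E 𝕜) where
  norm_nonneg x := N_nonneg x
  norm_smul a x := N_smul a x
  norm_triangle x y := N_add x y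
  norm_eq_zero_iff x := by
    constructor
    · intro h
      have h1 : N x = 0 := h
      have h2 := norm_le_N x
      rw [h1] at h2
      exact norm_le_zero_iff.mp h2
    · intro h
      have h3 : x = (0 : H 𝕜) := h
      have h1 := N_le x
      rw [h3] at h1
      have h2 := N_nonneg x
      rw [h3] at h2
      show N x = 0
      rw [h3]
      rw [norm_zero] at h1
      linarith

noncomputable instance : NormedAddCommGroup (E 𝕜) := NormedAddCommGroup.ofCore core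

noncomputable instance : NormedSpace 𝕜 (E 𝕜) := NormedSpace.ofCore core

/-- the identity map to the Hilbert space -/
def toH (x : E 𝕜) : H 𝕜 := x

/-- the identity map from the Hilbert space -/
def ofH (x : H 𝕜) : E 𝕜 := x

lemma norm_toH_le (x : E 𝕜) : ‖toH x‖ ≤ ‖x‖ := norm_le_N (toH x)

lemma norm_ofH_le (x : H 𝕜) : ‖ofH x‖ ≤ 3 * ‖x‖ := N_le x

lemma toH_sub (x y : E 𝕜) : toH (x - y) = toH x - toH y := rfl

instance : CompleteSpace (E 𝕜) := by
  apply Metric.complete_of_cauchySeq_tendsto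
  intro x hx
  have hx' : CauchySeq (fun n => toH (x n)) := by
    rw [Metric.cauchySeq_iff] at hx ⊢
    intro ε hε
    obtain ⟨M, hM⟩ := hx ε hε
    refine ⟨M, fun m hm n hn => ?_⟩
    have h1 := hM m hm n hn
    rw [dist_eq_norm] at h1 ⊢
    rw [← toH_sub]
    exact lt_of_le_of_lt (norm_toH_le _) h1
  obtain ⟨a, ha⟩ := cauchySeq_tendsto_of_complete hx'
  refine ⟨ofH a, ?_⟩
  rw [tendsto_iff_norm_sub_tendsto_zero] at ha ⊢
  refine squeeze_zero (fun n => norm_nonneg _) (fun n => norm_ofH_le (toH (x n) - a)) ?_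
  simpa using ha.const_mul 3

variable (𝕜) in
lemma not_finiteDimensional : ¬ FiniteDimensional 𝕜 (E 𝕜) := by
  intro h
  have h' : FiniteDimensional 𝕜 (H 𝕜) := h
  have hli : LinearIndependent 𝕜 (e : ℕ → H 𝕜) := by
    have ho : Orthonormal 𝕜 (e : ℕ → H 𝕜) := by
      rw [orthonormal_iff_ite]
      intro i j
      rw [inner_e]
      unfold e
      rw [lp.single_apply]
      simp [Pi.single_apply]
    exact ho.linearIndependent
  have : Finite ℕ := LinearIndependent.finite hli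
  exact not_finite ℕ

variable (𝕜) in
/-- Over every field of real or complex scalars: an equivalent norm on the Hilbert space without strong
subspaces of dimension at least two. -/
theorem main : (∀ x : E 𝕜, ‖toH x‖ ≤ ‖x‖ ∧ ‖x‖ ≤ 3 * ‖toH x‖) ∧
    ∀ G : Submodule 𝕜 (E 𝕜), 2 ≤ Module.rank 𝕜 G →
      ∀ x : E 𝕜, x ≠ 0 → ∃ g ∈ G, ∃ α : 𝕜, ‖g + α • x‖ < ‖g‖ := by
  refine ⟨fun x => ⟨norm_le_N (toH x), N_le (toH x)⟩, ?_⟩
  intro G hG y hy
  by_contra hcon
  push Not at hcon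
  obtain ⟨v, hv⟩ := (Module.le_rank_iff (n := 2)).mp hG
  refine no_strong (toH (v 0)) (toH (v 1)) (toH y) ?_ hy ?_
  · intro a b hab
    have h2 : a • v 0 + b • v 1 = 0 := Subtype.ext hab
    have h3 := Fintype.linearIndependent_iff.mp hv ![a, b] (by
      rw [Fin.sum_univ_two]
      simpa using h2)
    exact ⟨by simpa using h3 0, by simpa using h3 1⟩
  · intro a b t
    have h1 : a • (v 0 : E 𝕜) + b • (v 1 : E 𝕜) ∈ G :=
      G.add_mem (G.smul_mem _ (v 0).2) (G.smul_mem _ (v 1).2)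
    exact hcon _ h1 t

end Pool.Agent.H32.StrongK
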